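import Pool.Agent.H88.RO.Strings

set_option autoImplicit false

/-!
# Turing reductions between total search problems, with a time bound
-/

namespace Pool.Agent.H65.EW

open Pool.Agent.H88.RO Pool.Agent.H88.RO.Tr

/-- `Hst O sol c x h`: the list `h` (latest entry first) is a possible list of answers for the
program `c` on input `x`.  From `x` and the answers received so far the program computes its
next question `s`, marked by the first component `tt` of the output; it is answered by any `y`
with `sol s y`. -/
inductive Hst (O : List Bool → Bool) (sol : List Bool → List Bool → Prop) (c : Prog)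
    (x : List Bool) : Tr → Prop
  | nil : Hst O sol c x leaf
  | cons {h : Tr} {s y : List Bool} {u : ℕ} (hh : Hst O sol c x h)
      (he : Eval O c (node (enc x) h) (node tt (enc s)) u) (hy : sol s y) :
      Hst O sol c x (node (enc y) h)

/-- Turing reducibility of `S` to `T` in time `τ`: for every instance `x` of `S` and every
possible list of answers to questions to `T`, the program outputs an `S`-solution of `x` (marked
by the first component `leaf`) or, if fewer than `τ |x|` questions were asked, a further
question to `T`, in time at most `τ |x|`. -/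
def TuringWithin {O : List Bool → Bool} (τ : ℕ → ℕ) (S T : TFNP O) : Prop :=
  ∃ c : Prog, ∀ x h, Hst O T.IsSol c x h →
    (∃ w, (∃ u ≤ τ x.length, Eval O c (node (enc x) h) (node leaf (enc w)) u) ∧ S.IsSol x w) ∨
    (len h < τ x.length ∧ ∃ s, ∃ u ≤ τ x.length,
      Eval O c (node (enc x) h) (node tt (enc s)) u)

/-- Polynomial time Turing reducibility. -/
def TuringRed {O : List Bool → Bool} (S T : TFNP O) : Prop :=
  ∃ r : Polynomial ℕ, TuringWithin (fun n => r.eval n) S T

variable {O : List Bool → Bool}

theorem TuringWithin.mono {S T : TFNP O} {τ τ' : ℕ → ℕ} (hle : ∀ n, τ n ≤ τ' n)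
    (h : TuringWithin τ S T) : TuringWithin τ' S T := by
  obtain ⟨c, hc⟩ := h
  refine ⟨c, fun x h hh => ?_⟩
  rcases hc x h hh with ⟨w, ⟨u, hu, he⟩, hw⟩ | ⟨hl, s, u, hu, he⟩
  · exact Or.inl ⟨w, ⟨u, hu.trans (hle _), he⟩, hw⟩
  · exact Or.inr ⟨lt_of_lt_of_le hl (hle _), s, u, hu.trans (hle _), he⟩

/-- many-one reductions are Turing reductions -/
theorem turingWithin_of_reducesWithin {S T : TFNP O} {τ : ℕ → ℕ} (h : S.ReducesWithin τ T) :
    TuringWithin (fun n => 40 * τ n + 100) S T := by
  obtain ⟨cf, cg, hred⟩ := h
  -- the program: question `cf x` first, then the answer `cg x y`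
  let A : Prog := Prog.pair (Prog.pair Prog.nil Prog.nil) (Prog.comp cf Prog.fst)
  let B : Prog := Prog.pair Prog.nil (Prog.comp cg (Prog.pair Prog.fst (Prog.comp Prog.fst
    Prog.snd)))
  refine ⟨Prog.comp (Prog.cond A B) (Prog.pair Prog.snd Prog.id), fun x h hh => ?_⟩
  obtain ⟨s, ⟨t, ht, he⟩, hg⟩ := hred x
  have hx := he.cost_ge
  show (∃ w, (∃ u ≤ 40 * τ x.length + 100, _) ∧ _) ∨ (len h < 40 * τ x.length + 100 ∧ ∃ s,
    ∃ u ≤ 40 * τ x.length + 100, _)
  have hA : ∃ u ≤ 40 * τ x.length + 100, Eval O (Prog.comp (Prog.cond A B)
      (Prog.pair Prog.snd Prog.id)) (node (enc x) leaf) (node tt (enc s)) u := by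
    have h1 : Eval O A (node (enc x) leaf) (node tt (enc s)) _ :=
      Eval.pair (Eval.pair (Eval.nil _) (Eval.nil _)) (Eval.comp (Eval.fst (node (enc x) leaf)) he)
    have h2 : Eval O (Prog.cond A B) (node leaf (node (enc x) leaf)) (node tt (enc s)) _ :=
      Eval.condNil rfl h1
    refine ⟨_, ?_, Eval.comp (Eval.pair (Eval.snd (node (enc x) leaf)) (Eval.id _)) h2⟩
    simp only [size]
    omega
  cases hh with
  | nil =>
    obtain ⟨u, hu, h2⟩ := hA
    exact Or.inr ⟨by simp [len], s, u, hu, h2⟩
  | @cons h' s' y u' hh' he' hy =>
    cases hh' with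
    | nil =>
      -- the question was `s`
      have hs : s' = s := by
        obtain ⟨u, hu, h2⟩ := hA
        have e1 := U_eq he' (K := (size (code (Prog.comp (Prog.cond A B)
          (Prog.pair Prog.snd Prog.id))) + 10) * (u' + u) + 10)
          (Nat.add_le_add_right (Nat.mul_le_mul_left _ (by omega)) _)
        have e2 := U_eq h2 (K := (size (code (Prog.comp (Prog.cond A B)
          (Prog.pair Prog.snd Prog.id))) + 10) * (u' + u) + 10)
          (Nat.add_le_add_right (Nat.mul_le_mul_left _ (by omega)) _)
        rw [e1] at e2
        have e3 := congrArg (fun v => dec (snd (snd v))) e2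
        simpa using e3
      subst hs
      obtain ⟨w, ⟨t2, ht2, he2⟩, hw⟩ := hg y hy
      have hxy := he2.cost_ge
      left
      have h1 : Eval O B (node (enc x) (node (enc y) leaf)) (node leaf (enc w)) _ :=
        Eval.pair (Eval.nil _) (Eval.comp (Eval.pair (Eval.fst (node (enc x) (node (enc y) leaf)))
          (Eval.comp (Eval.snd (node (enc x) (node (enc y) leaf)))
            (Eval.fst (node (enc y) leaf)))) he2)
      have h2 : Eval O (Prog.cond A B) (node (node (enc y) leaf) (node (enc x)
          (node (enc y) leaf))) (node leaf (enc w)) _ := Eval.condNode (by simp) h1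
      refine ⟨w, ⟨_, ?_, Eval.comp (Eval.pair (Eval.snd (node (enc x) (node (enc y) leaf)))
        (Eval.id _)) h2⟩, hw⟩
      simp only [size] at hxy ⊢
      omega
    | @cons h'' s'' y'' u'' hh'' he'' hy'' =>
      -- no second question
      exfalso
      have hno : ∀ (v : Tr) (u : ℕ), ¬ Eval O (Prog.comp (Prog.cond A B)
          (Prog.pair Prog.snd Prog.id)) (node (enc x) (node (enc y'') h'')) (node tt v) u := by
        intro v u hE
        cases hE with
        | comp hg' hf' =>
          cases hg' with
          | pair ha hb =>
            cases ha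
            cases hb
            cases hf' with
            | condNil h0 _ => simp at h0
            | condNode h0 hB =>
              have hB' : Eval O (Prog.pair Prog.nil (Prog.comp cg (Prog.pair Prog.fst
                (Prog.comp Prog.fst Prog.snd)))) _ (node tt v) _ := hB
              cases hB' with
              | pair hn _ => cases hn
      exact hno _ _ he'

end Pool.Agent.H65.EW
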