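import Pool.Agent.H45.EW.Diag
import Pool.Agent.H65.EW.TDef

set_option autoImplicit false

/-! # The positions which a Turing reduction reads -/

namespace Pool.Agent.H65.EW

open Pool.Agent.H88.RO Tr Classical Pool.Agent.H45.EW

/-- The Turing reduction by `c` to the candidate `e` works at the instance `1 ^ b` in time `T`,
for the problem which asks for an element of length `b ^ (κ + 1)` of the region `(j, b)`. -/
def TRedAt (O : Orc) (e : Pre) (κ j : ℕ) (c : Prog) (T b : ℕ) : Prop :=
  ∀ h, Hst O (Sol e O) c (List.replicate b true) h →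
    (∃ w : List Bool, (∃ u ≤ T, Eval O c (node (enc (List.replicate b true)) h)
      (node leaf (enc w)) u) ∧ w.length = b ^ (κ + 1) ∧ O (rg j b w) = true) ∨
    (len h < T ∧ ∃ s : List Bool, ∃ u ≤ T, Eval O c (node (enc (List.replicate b true)) h)
      (node tt (enc s)) u)

theorem TRedAt.mono {O : Orc} {e : Pre} {κ j : ℕ} {c : Prog} {T T' b : ℕ} (h : T ≤ T')
    (hr : TRedAt O e κ j c T b) : TRedAt O e κ j c T' b := by
  intro g hg
  rcases hr g hg with ⟨w, ⟨u, hu, he⟩, hw⟩ | ⟨hl, s, u, hu, he⟩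
  · exact Or.inl ⟨w, ⟨u, hu.trans h, he⟩, hw⟩
  · exact Or.inr ⟨by omega, s, u, hu.trans h, he⟩

/-- the output of the clocked machine -/
theorem snd_U_of_eval {O : Orc} {c : Prog} {v w : Tr} {t T : ℕ} (ht : t ≤ T)
    (he : Eval O c v w t) : snd (U O (code c) v ((size (code c) + 10) * T + 10)) = w := by
  rw [U_eq he (Nat.add_le_add_right (Nat.mul_le_mul_left _ ht) _), snd_node]

theorem length_dec_snd_U (O : Orc) (c v : Tr) (K : ℕ) :
    (dec (snd (snd (U O c v K)))).length ≤ K := by
  rcases U_cases (O := O) c v K with h | ⟨w, h⟩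
  · rw [h]
    exact Nat.zero_le _
  · rw [h, snd_node, length_dec]
    have h1 := size_of_U h
    have h2 := len_le_size (snd w)
    have h3 := size_snd_le w
    omega

/-- following one list of answers, with `n` more questions -/
theorem exists_tread_aux (e : Pre) (c : Prog) (O : Orc) (T b : ℕ) (hT : Tot e O) (n : ℕ) :
    ∀ h : Tr, T ≤ len h + n → ∃ (Q : Finset (List Bool)) (w0 : List Bool),
      Q.card ≤ (n + 1) * (((size (code c) + 10) * T + 10) +
        e.2.1.eval (((size (code c) + 10) * T + 10) +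
          e.2.2.eval ((size (code c) + 10) * T + 10))) ∧
      ∀ O' : Orc, (∀ s ∈ Q, O' s = O s) → ∀ κ j,
        Hst O' (Sol e O') c (List.replicate b true) h → TRedAt O' e κ j c T b →
          w0.length = b ^ (κ + 1) ∧ O' (rg j b w0) = true := by
  induction n with
  | zero =>
    intro h hl
    set K := (size (code c) + 10) * T + 10 with hK
    set v := enc (List.replicate b true) with hv
    obtain ⟨Q1, h11, _, h13⟩ := U_local O (code c) (node v h) K
    refine ⟨Q1, dec (snd (snd (U O (code c) (node v h) K))), ?_, ?_⟩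
    · rw [zero_add, one_mul]
      omega
    · intro O' hO' κ j hh hred
      have e1 := h13 O' hO'
      rcases hred h hh with ⟨w, ⟨u, hu, he⟩, hw⟩ | ⟨hl', _⟩
      · have h2 : snd (U O' (code c) (node v h) K) = node leaf (enc w) := snd_U_of_eval hu he
        rw [← e1, h2, snd_node, dec_enc]
        exact hw
      · omega
  | succ n ih =>
    intro h hl
    set K := (size (code c) + 10) * T + 10 with hK
    set v := enc (List.replicate b true) with hv
    obtain ⟨Q1, h11, _, h13⟩ := U_local O (code c) (node v h) K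
    set s0 := dec (snd (snd (U O (code c) (node v h) K))) with hs0
    have hl0 : s0.length ≤ K := length_dec_snd_U _ _ _ _
    obtain ⟨y0, hy0⟩ := hT s0
    obtain ⟨Q2, h21, _, h23⟩ := U_local O e.1 (node (enc s0) (enc y0))
      (e.2.1.eval (s0.length + y0.length))
    have hq2 : Q2.card ≤ e.2.1.eval (K + e.2.2.eval K) := by
      refine h21.trans (poly_mono _ ?_)
      have h1 := hy0.1
      have h2 := poly_mono e.2.2 hl0
      omega
    obtain ⟨Q3, w3, h31, h33⟩ := ih (node (enc y0) h) (by simp only [len]; omega)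
    have hcard : (Q1 ∪ (Q2 ∪ Q3)).card ≤ (n + 1 + 1) * (K + e.2.1.eval (K + e.2.2.eval K)) := by
      have h1 := Finset.card_union_le Q1 (Q2 ∪ Q3)
      have h2 := Finset.card_union_le Q2 Q3
      have h3 : (n + 1 + 1) * (K + e.2.1.eval (K + e.2.2.eval K)) =
        (n + 1) * (K + e.2.1.eval (K + e.2.2.eval K)) + (K + e.2.1.eval (K + e.2.2.eval K)) := by
        ring
      omega
    refine ⟨Q1 ∪ (Q2 ∪ Q3), if fst (snd (U O (code c) (node v h) K)) = leaf then s0 else w3,
      hcard, ?_⟩
    intro O' hO' κ j hh hred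
    have e1 := h13 O' (fun q hq => hO' q (Finset.mem_union_left _ hq))
    have e2 := h23 O' (fun q hq => hO' q (Finset.mem_union_right _ (Finset.mem_union_left _ hq)))
    have e3 := h33 O' (fun q hq => hO' q (Finset.mem_union_right _ (Finset.mem_union_right _ hq)))
    rcases hred h hh with ⟨w, ⟨u, hu, he⟩, hw⟩ | ⟨_, s, u, hu, he⟩
    · have h2 : snd (U O' (code c) (node v h) K) = node leaf (enc w) := snd_U_of_eval hu he
      have h4 : s0 = w := by rw [hs0, ← e1, h2, snd_node, dec_enc]
      rw [← e1, h2, fst_node, if_pos rfl, h4]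
      exact hw
    · have h2 : snd (U O' (code c) (node v h) K) = node tt (enc s) := snd_U_of_eval hu he
      have h4 : s0 = s := by rw [hs0, ← e1, h2, snd_node, dec_enc]
      rw [← e1, h2, fst_node, if_neg tt_ne]
      refine e3 κ j (Hst.cons hh he ?_) hred
      rw [← h4]
      exact ⟨hy0.1, by rw [e2]; exact hy0.2⟩

/-- If the candidate is total relative to `O` then a Turing reduction reads few positions, for
one list of answers, and the only result which it can give is `w0`, for all oracles which agree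
with `O` on these positions. -/
theorem exists_tread (e : Pre) (c : Prog) : ∃ P : Polynomial ℕ, ∀ (O : Orc) (T b : ℕ),
    Tot e O → ∃ (Q : Finset (List Bool)) (w0 : List Bool), Q.card ≤ P.eval T ∧
      ∀ O' : Orc, (∀ s ∈ Q, O' s = O s) → ∀ κ j, TRedAt O' e κ j c T b →
        w0.length = b ^ (κ + 1) ∧ O' (rg j b w0) = true := by
  refine ⟨(Polynomial.X + 1) * ((Polynomial.C (size (code c) + 10) * Polynomial.X + 10) +
    e.2.1.comp ((Polynomial.C (size (code c) + 10) * Polynomial.X + 10) +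
      e.2.2.comp (Polynomial.C (size (code c) + 10) * Polynomial.X + 10))),
    fun O T b hT => ?_⟩
  obtain ⟨Q, w0, h1, h2⟩ := exists_tread_aux e c O T b hT T leaf (by simp [len])
  refine ⟨Q, w0, h1.trans (le_of_eq ?_), fun O' hO' κ j hred => h2 O' hO' κ j Hst.nil hred⟩
  simp

/-- the polynomial used in the condition on the time bounds -/
noncomputable def TPol (e : Pre) (c : Prog) : Polynomial ℕ :=
  (exists_tread e c).choose + 1 + Polynomial.X

/-- The reduction fails at some instance `1 ^ b`, `b ≥ N`, in every time `T` which is small. -/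
def TKill (ℓ : ℕ → ℕ) {tr : Orc → List Bool → Prop} (e : Pre) (κ j : ℕ) (c : Prog) (N : ℕ)
    (p : Cnd ℓ tr) : Prop :=
  ∃ b, N ≤ b ∧ ∀ T, (∀ m, b ^ (κ + 1) ≤ m → (TPol e c).eval T < 2 ^ ℓ m) →
    ∀ O', Ag p.m p.O O' → ¬ TRedAt O' e κ j c T b

variable {ℓ : ℕ → ℕ} {tr : Orc → List Bool → Prop}

theorem TKill.mono {e : Pre} {κ j : ℕ} {c : Prog} {N : ℕ} {p q : Cnd ℓ tr} (h : p.Le q)
    (hp : TKill ℓ e κ j c N p) : TKill ℓ e κ j c N q := by
  obtain ⟨b, hb, hk⟩ := hp
  exact ⟨b, hb, fun T hT O' hO' => hk T hT O' (h.ag.trans hO' h.m)⟩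

/-- the reduction can be made wrong -/
theorem exists_tkill (htr : Loc tr) (hℓ : ∀ n, ℓ n ≤ n) {e : Pre} {κ j : ℕ} {p : Cnd ℓ tr}
    (hp : Alive e κ j p) (c : Prog) (N : ℕ) :
    ∃ q : Cnd ℓ tr, p.Le q ∧ TKill ℓ e κ j c N q := by
  obtain ⟨β, m0, hm0, hβ, hA, htot⟩ := hp
  obtain ⟨b, hNb, hβb, hmb⟩ : ∃ b, N ≤ b ∧ β ≤ b ∧ p.m ≤ b :=
    ⟨max N (max β p.m), le_max_left _ _, (le_max_left _ _).trans (le_max_right _ _),
      (le_max_right _ _).trans (le_max_right _ _)⟩
  let S : Set ℕ := {T | ∀ m, b ^ (κ + 1) ≤ m → (TPol e c).eval T < 2 ^ ℓ m}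
  have hev : ∀ T, (TPol e c).eval T = (exists_tread e c).choose.eval T + 1 + T := by
    intro T; simp [TPol]
  have hbd : BddAbove S := by
    refine ⟨2 ^ ℓ (b ^ (κ + 1)), fun T hT => ?_⟩
    have h1 : (TPol e c).eval T < 2 ^ ℓ (b ^ (κ + 1)) := hT _ le_rfl
    rw [hev] at h1
    omega
  by_cases hS : S.Nonempty
  · have hT : sSup S ∈ S := Nat.sSup_mem hS hbd
    have hmax : ∀ T' ∈ S, T' ≤ sSup S := fun T' h => le_csSup hbd h
    generalize sSup S = T at hT hmax
    have hT' : ∀ m, b ^ (κ + 1) ≤ m → (exists_tread e c).choose.eval T + 1 + T < 2 ^ ℓ m := by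
      intro m hm
      rw [← hev]
      exact hT m hm
    obtain ⟨O0, hO0, hag0, hemp, hoth, hnopw⟩ := exists_empty htr p.leg p.m j b hmb
    have htot0 : Tot e O0 := by
      refine htot O0 hO0 (hag0.mono hm0) ?_
      intro i c hij hic b' hb'
      obtain ⟨z, hz, hz'⟩ := p.sat i c hic b' hb'
      refine ⟨z, hz, ?_⟩
      rw [hoth i b' z (by intro h; rw [Prod.mk.injEq] at h; omega)]
      exact hz'
    obtain ⟨Q, w0, hQc, hread⟩ := (exists_tread e c).choose_spec O0 T b htot0
    have hpos : Function.Injective (rg j b) :=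
      fun z z' h => (Pool.Agent.H45.EW.rg_inj h).2.2
    have hfree : Q.card + 1 < 2 ^ (b ^ (κ + 1)) := by
      have h1 := hT' _ le_rfl
      have h2 : 2 ^ ℓ (b ^ (κ + 1)) ≤ 2 ^ (b ^ (κ + 1)) :=
        Nat.pow_le_pow_right (by norm_num) (hℓ _)
      omega
    obtain ⟨z, hzl, hzQ, hzw⟩ := exists_free Q (b ^ (κ + 1)) w0 (rg j b) hpos hfree
    have hlen : (rg j b z).length = j + b + b ^ (κ + 1) + 3 := by rw [rg_length, hzl]
    obtain ⟨O1, hO1, hag1, hQ1, hz1, hoth1⟩ := exists_repair htr hO0 j b z Q hzQ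
      (fun n w hn => hnopw n w (by rw [hlen] at hn; omega))
      (fun n hn => by
        have h1 := hT' n (by rw [hlen] at hn; omega)
        omega)
    have hreg : ∀ i b' z', (i, b') ≠ (j, b) → O1 (rg i b' z') = p.O (rg i b' z') := by
      intro i b' z' hne
      rw [hoth1 i b' z' (fun h => hne (by
        obtain ⟨h1, h2, -⟩ := Pool.Agent.H45.EW.rg_inj h
        rw [h1, h2])), hoth i b' z' hne]
    have hsat : ∀ i c, p.A[i]? = some c → Sat O1 i c := by
      intro i c hic b' hb'
      by_cases hne : (i, b') = (j, b)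
      · rw [Prod.mk.injEq] at hne
        obtain ⟨h1, h2⟩ := hne
        subst h1 h2
        rw [hA] at hic
        obtain rfl : (κ, β) = c := Option.some.inj hic
        exact ⟨z, hzl, hz1⟩
      · obtain ⟨z', hz', hz''⟩ := p.sat i c hic b' hb'
        exact ⟨z', hz', by rw [hreg i b' z' hne]; exact hz''⟩
    have hagp : Ag p.m p.O O1 := hag0.trans hag1 (by rw [hlen]; omega)
    let M : ℕ := max p.m (max (Q.sup List.length + 1) ((rg j b w0).length + 1))
    have hM1 : p.m ≤ M := le_max_left _ _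
    have hM2 : Q.sup List.length + 1 ≤ M := (le_max_left _ _).trans (le_max_right _ _)
    have hM3 : (rg j b w0).length + 1 ≤ M := (le_max_right _ _).trans (le_max_right _ _)
    refine ⟨⟨O1, M, p.A, hO1, hsat⟩, ⟨hM1, hagp, List.prefix_rfl⟩, b, hNb, ?_⟩
    intro T' hTT O' hag' hred
    have hag'' : Ag M O1 O' := hag'
    have hred' : TRedAt O' e κ j c T b := hred.mono (hmax T' hTT)
    have hQ' : ∀ s ∈ Q, O' s = O0 s := by
      intro s hs
      rw [hag'' s (by
        have := Finset.le_sup (f := List.length) hs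
        omega), hQ1 s hs]
    obtain ⟨-, hw⟩ := hread O' hQ' κ j hred'
    rw [hag'' _ (by omega), hoth1 j b w0
      (fun h => hzw (Pool.Agent.H45.EW.rg_inj h).2.2.symm), hemp] at hw
    exact Bool.false_ne_true hw
  · refine ⟨p, Cnd.Le.refl p, b, hNb, ?_⟩
    intro T hT
    exact absurd ⟨T, hT⟩ hS

end Pool.Agent.H65.EW
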