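import Mathlib

/-!
# EASYWORLD: the numbers for passwords of length `n` and reductions in time `C 2 ^ (n ^ k)`
-/

set_option autoImplicit false

namespace Pool.Agent.H65.EW

open Polynomial

theorem poly_le_pow (P : Polynomial ℕ) : ∃ A d : ℕ, ∀ m : ℕ, P.eval m ≤ A * (m + 1) ^ d := by
  induction P using Polynomial.induction_on' with
  | add p q hp hq =>
    obtain ⟨A, d, h1⟩ := hp
    obtain ⟨B, f, h2⟩ := hq
    refine ⟨A + B, d + f, fun m => ?_⟩
    rw [Polynomial.eval_add, add_mul]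
    refine Nat.add_le_add ((h1 m).trans (Nat.mul_le_mul_left _ ?_)) ((h2 m).trans (Nat.mul_le_mul_left _ ?_))
    · exact Nat.pow_le_pow_right (Nat.succ_pos m) (Nat.le_add_right _ _)
    · exact Nat.pow_le_pow_right (Nat.succ_pos m) (Nat.le_add_left _ _)
  | monomial k a =>
    refine ⟨a, k, fun m => ?_⟩
    rw [Polynomial.eval_monomial]
    exact Nat.mul_le_mul_left _ (Nat.pow_le_pow_left (Nat.le_succ m) _)

/-- the time bound -/
def tauA (e b : ℕ) : ℕ := e * 2 ^ b ^ e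

/-- the length of the solutions -/
noncomputable def rhoA (e : ℕ) : Polynomial ℕ := X ^ (e + 1) + 1

theorem rhoA_eval (e b : ℕ) : (rhoA e).eval b = b ^ (e + 1) + 1 := by
  unfold rhoA
  simp

theorem numA (e : ℕ) (P : Polynomial ℕ) : ∃ b0 : ℕ, ∀ b ≥ b0, P.eval (tauA e b) < 2 ^ (rhoA e).eval b ∧
    ∀ n ≥ (rhoA e).eval b, P.eval (tauA e b) < 2 ^ n := by
  obtain ⟨A, d, h⟩ := poly_le_pow P
  refine ⟨A * (e + 1) ^ d + d + 1, fun b hb => ?_⟩
  have hb1 : 1 ≤ b ^ e := Nat.one_le_pow _ _ (by omega)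
  have h1 : tauA e b + 1 ≤ (e + 1) * 2 ^ b ^ e := by
    have h2 : 1 ≤ 2 ^ b ^ e := Nat.one_le_two_pow
    unfold tauA
    rw [add_mul, one_mul]
    omega
  have key : P.eval (tauA e b) < 2 ^ (b ^ (e + 1) + 1) := by
    calc P.eval (tauA e b) ≤ A * (tauA e b + 1) ^ d := h _
      _ ≤ A * ((e + 1) * 2 ^ b ^ e) ^ d := Nat.mul_le_mul_left _ (Nat.pow_le_pow_left h1 _)
      _ = A * (e + 1) ^ d * 2 ^ (b ^ e * d) := by rw [mul_pow, ← pow_mul, mul_assoc]
      _ < 2 ^ (A * (e + 1) ^ d) * 2 ^ (b ^ e * d) := Nat.mul_lt_mul_of_pos_right Nat.lt_two_pow_self (by positivity)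
      _ = 2 ^ (A * (e + 1) ^ d + b ^ e * d) := by rw [← pow_add]
      _ ≤ 2 ^ (b ^ (e + 1) + 1) := by
        refine Nat.pow_le_pow_right (by norm_num) ?_
        have h3 : A * (e + 1) ^ d ≤ b ^ e * (A * (e + 1) ^ d) := Nat.le_mul_of_pos_left _ hb1
        have h4 : b ^ e * (A * (e + 1) ^ d + d) ≤ b ^ e * b := Nat.mul_le_mul_left _ (by omega)
        rw [mul_add] at h4
        rw [pow_succ]
        omega
  rw [rhoA_eval]
  exact ⟨key, fun n hn => key.trans_le (Nat.pow_le_pow_right (by norm_num) hn)⟩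

/-- the time bound with a constant -/
def tauC (e C b : ℕ) : ℕ := C * 2 ^ b ^ e

theorem numC (e C : ℕ) (P : Polynomial ℕ) : ∃ b0 : ℕ, ∀ b, b0 ≤ b → P.eval (tauC e C b) < 2 ^ (rhoA e).eval b ∧
    ∀ n, (rhoA e).eval b ≤ n → P.eval (tauC e C b) < 2 ^ n := by
  obtain ⟨A, d, h⟩ := poly_le_pow P
  refine ⟨A * (C + 1) ^ d + d + 1, fun b hb => ?_⟩
  have hb1 : 1 ≤ b ^ e := Nat.one_le_pow _ _ (by omega)
  have h1 : tauC e C b + 1 ≤ (C + 1) * 2 ^ b ^ e := by
    have h2 : 1 ≤ 2 ^ b ^ e := Nat.one_le_two_pow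
    unfold tauC
    rw [add_mul, one_mul]
    omega
  have key : P.eval (tauC e C b) < 2 ^ (b ^ (e + 1) + 1) := by
    calc P.eval (tauC e C b) ≤ A * (tauC e C b + 1) ^ d := h _
      _ ≤ A * ((C + 1) * 2 ^ b ^ e) ^ d := Nat.mul_le_mul_left _ (Nat.pow_le_pow_left h1 _)
      _ = A * (C + 1) ^ d * 2 ^ (b ^ e * d) := by rw [mul_pow, ← pow_mul, mul_assoc]
      _ < 2 ^ (A * (C + 1) ^ d) * 2 ^ (b ^ e * d) := Nat.mul_lt_mul_of_pos_right Nat.lt_two_pow_self (by positivity)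
      _ = 2 ^ (A * (C + 1) ^ d + b ^ e * d) := by rw [← pow_add]
      _ ≤ 2 ^ (b ^ (e + 1) + 1) := by
        refine Nat.pow_le_pow_right (by norm_num) ?_
        have h3 : A * (C + 1) ^ d ≤ b ^ e * (A * (C + 1) ^ d) := Nat.le_mul_of_pos_left _ hb1
        have h4 : b ^ e * (A * (C + 1) ^ d + d) ≤ b ^ e * b := Nat.mul_le_mul_left _ (by omega)
        rw [mul_add] at h4
        rw [pow_succ]
        omega
  rw [rhoA_eval]
  exact ⟨key, fun n hn => key.trans_le (Nat.pow_le_pow_right (by norm_num) hn)⟩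

/-- polynomials are below `C * 2 ^ (n ^ e)` for every `e ≥ 1` and some `C` -/
theorem tauC_poly {e : ℕ} (he : 1 ≤ e) (P : Polynomial ℕ) : ∃ C : ℕ, ∀ n : ℕ, P.eval n ≤ tauC e C n := by
  obtain ⟨A, d, h⟩ := poly_le_pow P
  obtain ⟨B, hB⟩ : ∃ B : ℕ, ∀ n : ℕ, (n + 1) ^ d ≤ B * 2 ^ n := by
    refine ⟨d.factorial * 2 ^ d, fun n => ?_⟩
    calc (n + 1) ^ d ≤ (n + 1).ascFactorial d := Nat.pow_succ_le_ascFactorial (n + 1) d
      _ = d.factorial * (n + d).choose d := Nat.ascFactorial_eq_factorial_mul_choose n d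
      _ ≤ d.factorial * 2 ^ (n + d) := Nat.mul_le_mul_left _ (Nat.choose_le_two_pow _ _)
      _ = d.factorial * 2 ^ d * 2 ^ n := by rw [add_comm n d, pow_add, mul_assoc]
  refine ⟨A * B, fun n => (h n).trans ?_⟩
  unfold tauC
  rw [mul_assoc]
  refine Nat.mul_le_mul_left _ ((hB n).trans (Nat.mul_le_mul_left _ (Nat.pow_le_pow_right (by norm_num) ?_)))
  exact Nat.le_self_pow (by omega) n

/-- monotone in the exponent, up to the constant -/
theorem tauC_mono {k e : ℕ} (h : k ≤ e) (C n : ℕ) : tauC k C n ≤ tauC e (2 * C) n := by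
  unfold tauC
  rcases Nat.eq_zero_or_pos n with rfl | hn
  · have h1 : (0 : ℕ) ^ k ≤ 1 := by
      rcases Nat.eq_zero_or_pos k with rfl | hk
      · simp
      · rw [zero_pow hk.ne']
        exact Nat.zero_le _
    calc C * 2 ^ (0 : ℕ) ^ k ≤ C * 2 ^ 1 := Nat.mul_le_mul_left _ (Nat.pow_le_pow_right (by norm_num) h1)
      _ = 2 * C := by ring
      _ ≤ 2 * C * 2 ^ (0 : ℕ) ^ e := Nat.le_mul_of_pos_right _ (by positivity)
  · exact Nat.mul_le_mul (by omega) (Nat.pow_le_pow_right (by norm_num) (Nat.pow_le_pow_right hn h))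

/-- the time bounds cover `C * 2 ^ (n ^ k)` -/
theorem tauA_cover (C k : ℕ) : ∃ e : ℕ, ∀ n : ℕ, C * 2 ^ n ^ k ≤ tauA e n := by
  refine ⟨2 * C + k + 1, fun n => ?_⟩
  unfold tauA
  rcases Nat.eq_zero_or_pos n with rfl | hn
  · rw [zero_pow (by omega : 2 * C + k + 1 ≠ 0)]
    have h1 : (0 : ℕ) ^ k ≤ 1 := by
      rcases Nat.eq_zero_or_pos k with rfl | hk
      · simp
      · rw [zero_pow hk.ne']
        exact Nat.zero_le _
    have h2 : C * 2 ^ (0 : ℕ) ^ k ≤ C * 2 ^ 1 := Nat.mul_le_mul_left _ (Nat.pow_le_pow_right (by norm_num) h1)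
    omega
  · refine Nat.mul_le_mul (by omega) (Nat.pow_le_pow_right (by norm_num) ?_)
    exact Nat.pow_le_pow_right hn (by omega)

/-- the time bounds cover all polynomials -/
theorem tauA_poly (P : Polynomial ℕ) : ∃ e : ℕ, ∀ n : ℕ, P.eval n ≤ tauA e n := by
  obtain ⟨A, d, h⟩ := poly_le_pow P
  refine ⟨A * 2 ^ d + d + 2, fun n => (h n).trans ?_⟩
  unfold tauA
  have h2d : 1 ≤ 2 ^ d := Nat.one_le_two_pow
  have hA : A ≤ A * 2 ^ d := Nat.le_mul_of_pos_right _ h2d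
  rcases Nat.lt_or_ge n 2 with hn | hn
  · interval_cases n
    · rw [zero_pow (by omega : A * 2 ^ d + d + 2 ≠ 0)]
      simp only [zero_add, one_pow, mul_one, pow_zero]
      omega
    · rw [one_pow]
      simp only [Nat.reduceAdd, pow_one]
      omega
  · have h1 : (n + 1) ^ d ≤ 2 ^ (n * d) := by
      rw [pow_mul]
      exact Nat.pow_le_pow_left Nat.lt_two_pow_self d
    refine Nat.mul_le_mul (by omega) (h1.trans (Nat.pow_le_pow_right (by norm_num) ?_))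
    have h3 : d ≤ n ^ (A * 2 ^ d + d + 1) := by
      calc d ≤ 2 ^ d := Nat.lt_two_pow_self.le
        _ ≤ n ^ d := Nat.pow_le_pow_left hn d
        _ ≤ n ^ (A * 2 ^ d + d + 1) := Nat.pow_le_pow_right (by omega) (by omega)
    calc n * d ≤ n * n ^ (A * 2 ^ d + d + 1) := Nat.mul_le_mul_left _ h3
      _ = n ^ (A * 2 ^ d + d + 2) := by rw [pow_succ n (A * 2 ^ d + d + 1), mul_comm]

end Pool.Agent.H65.EW
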