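import Pool.Agent.H65.EW.Cls

set_option autoImplicit false

/-!
# The search problem given by the regions of an oracle
-/

namespace Pool.Agent.H65.EW

open Pool.Agent.H88.RO Pool.Agent.H88.RO.Tr Pool.Agent.H65.TS Pool.Agent.H65.NU

variable {O : List Bool → Bool}

/-- the positions of the region with numbers `j` and `b`: `1 1^j 0 1^b 0 z` -/
def rg (j b : ℕ) (z : List Bool) : List Bool :=
  true :: (List.replicate j true ++ false :: (List.replicate b true ++ false :: z))

theorem rg_length (j b : ℕ) (z : List Bool) : (rg j b z).length = j + b + z.length + 3 := by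
  simp [rg]; ring

/-- the program for the relation -/
private def relT (O : List Bool → Bool) (j β : ℕ) (P : Tr → Tr) (v : Tr) : Tr :=
  cs (dropU (fst v) (num β))
    (cs (dropU (P (fst v)) (snd v))
      (cs (dropU (snd v) (P (fst v)))
        (bit (O (dec (node tt (onesPre (num j) (node leaf (onesPre (fst v)
          (node leaf (snd v))))))))) leaf) leaf) tt

private theorem FP_relT (O : List Bool → Bool) (j β : ℕ) {P : Tr → Tr}
    (hP : ∀ (F : Tr → Tr), FP O F → FP O (fun v => P (F v))) : FP O (relT O j β P) := by
  have h1 : FP O (fun v => fst v) := FP.fst' FP.id'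
  have h2 : FP O (fun v => snd v) := FP.snd' FP.id'
  exact FP.cs' (FP.dropU' h1 (FP.const' _)) (FP.cs' (FP.dropU' (hP _ h1) h2)
    (FP.cs' (FP.dropU' h2 (hP _ h1)) (FP.query' (FP.node' (FP.const' _) (FP.onesPre'
      (FP.const' _) (FP.node' FP.leaf' (FP.onesPre' h1 (FP.node' FP.leaf' h2)))))) FP.leaf')
      FP.leaf') (FP.const' _)

/-- the relation of the search problem: `y` is a string in the region number `j`, `|x|`; every
string is a solution of the instances that are shorter than `β` -/
def Rel (O : List Bool → Bool) (j β : ℕ) (r : Polynomial ℕ) (x y : List Bool) : Bool :=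
  decide (x.length < β) || (decide (y.length = r.eval x.length) && O (rg j x.length y))

theorem polyTimeRel_Rel (O : List Bool → Bool) (j β : ℕ) (r : Polynomial ℕ) :
    PolyTimeRel O (Rel O j β r) := by
  obtain ⟨P, hp1, hp2⟩ := exists_polyT r
  refine polyTimeRel_of_FP (FP_relT O j β (hp2 O)) (fun x y => ?_)
  unfold relT Rel
  have e0 : dec (node tt (onesPre (num j) (node leaf (onesPre (enc x) (node leaf (enc y)))))) =
      rg j x.length y := by
    have h1 : ∀ w, node leaf (enc w) = enc (false :: w) := fun w => rfl
    have h2 : ∀ w, node tt (enc w) = enc (true :: w) := fun w => rfl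
    rw [h1, onesPre_enc, h1, onesPre_enc, h2, dec_enc, len_num, len_enc, rg]
  rw [fst_node, snd_node, e0, hp1, len_enc]
  by_cases h : x.length < β
  · rw [cs_neg _ _ (by rw [ne_eq, dropU_eq_leaf, len_enc, len_num]; omega)]
    simp [h]
  · rw [cs_pos _ _ (by rw [dropU_eq_leaf, len_enc, len_num]; omega)]
    by_cases h1 : y.length ≤ r.eval x.length
    · rw [cs_pos _ _ (by rw [dropU_eq_leaf, len_enc, len_num]; exact h1)]
      by_cases h2 : r.eval x.length ≤ y.length
      · rw [cs_pos _ _ (by rw [dropU_eq_leaf, len_enc, len_num]; exact h2)]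
        have e : y.length = r.eval x.length := by omega
        rw [TS.bit_ne_leaf]
        simp [h, e]
      · rw [cs_neg _ _ (by rw [ne_eq, dropU_eq_leaf, len_enc, len_num]; exact h2)]
        simp [h, show y.length ≠ r.eval x.length by omega]
    · rw [cs_neg _ _ (by rw [ne_eq, dropU_eq_leaf, len_enc, len_num]; exact h1)]
      simp [h, show y.length ≠ r.eval x.length by omega]

/-- **The search problem of a family of nonempty regions.** -/
def SJ (O : List Bool → Bool) (j β : ℕ) (r : Polynomial ℕ)
    (h : ∀ b, β ≤ b → ∃ z : List Bool, z.length = r.eval b ∧ O (rg j b z) = true) : TFNP O where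
  R := Rel O j β r
  p := r
  polyTime := polyTimeRel_Rel O j β r
  total := by
    intro x
    by_cases hx : x.length < β
    · exact ⟨[], by simp, by simp [Rel, hx]⟩
    · obtain ⟨z, hz1, hz2⟩ := h x.length (by omega)
      exact ⟨z, hz1.le, by simp [Rel, hz1, hz2]⟩

theorem SJ_sol {j β : ℕ} {r : Polynomial ℕ}
    (h : ∀ b, β ≤ b → ∃ z : List Bool, z.length = r.eval b ∧ O (rg j b z) = true)
    {x y : List Bool} (hx : β ≤ x.length) (hy : (SJ O j β r h).IsSol x y) :
    y.length = r.eval x.length ∧ O (rg j x.length y) = true := by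
  have h1 : Rel O j β r x y = true := hy.2
  simpa [Rel, show ¬ x.length < β by omega] using h1

/-- the solutions depend only on the length of the instance -/
theorem SJ_length {j β : ℕ} {r : Polynomial ℕ}
    (h : ∀ b, β ≤ b → ∃ z : List Bool, z.length = r.eval b ∧ O (rg j b z) = true)
    {x x' y : List Bool} (hx : x.length = x'.length) :
    (SJ O j β r h).IsSol x y ↔ (SJ O j β r h).IsSol x' y := by
  unfold TFNP.IsSol
  show (y.length ≤ r.eval x.length ∧ Rel O j β r x y = true) ↔
    (y.length ≤ r.eval x'.length ∧ Rel O j β r x' y = true)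
  rw [Rel, Rel, hx]

end Pool.Agent.H65.EW
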