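import Pool.Agent.H65.EW.Sig

set_option autoImplicit false

/-!
# Polynomial time with advice, and with an NP oracle, for oracles with a legal table
-/

namespace Pool.Agent.H65.EW

open Pool.Agent.H88.RO Pool.Agent.H88.RO.Tr Pool.Agent.H65.TS Pool.Agent.H65.NU

variable {O : List Bool → Bool}

/-- The set `L` is decidable in polynomial time relative to the oracle `O`. -/
def InP (O : List Bool → Bool) (L : Set (List Bool)) : Prop :=
  ∃ (χ : List Bool → Bool) (c : Prog) (q : Polynomial ℕ),
    (∀ x, ∃ t ≤ q.eval x.length, Eval O c (enc x) (bit (χ x)) t) ∧ ∀ x, x ∈ L ↔ χ x = true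

/-- The set `L` is in the class P/poly relative to `O`: decidable in polynomial time with
polynomially long advice depending on the length of the input. -/
def InPPoly (O : List Bool → Bool) (L : Set (List Bool)) : Prop :=
  ∃ (L' : Set (List Bool)) (a : ℕ → List Bool), InP O L' ∧ PolyLong a ∧
    ∀ x, x ∈ L ↔ pr (a x.length) x ∈ L'

/-- The set `L` is in the class P^(NP^O): it is decidable in polynomial time relative to an
oracle that is the characteristic function of a set in NP relative to `O`. -/
def InPNP (O : List Bool → Bool) (L : Set (List Bool)) : Prop :=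
  ∃ A : List Bool → Bool, InNP O {x | A x = true} ∧ InP A L

theorem inP_of_FP {F : Tr → Tr} (hF : FP O F) {χ : List Bool → Bool}
    (h : ∀ x, F (enc x) = bit (χ x)) : InP O {x | χ x = true} := by
  obtain ⟨c, q, hc⟩ := hF
  refine ⟨χ, c, q.comp (4 * Polynomial.X + 1), fun x => ?_, fun x => Iff.rfl⟩
  obtain ⟨t, ht, he⟩ := hc (enc x)
  rw [h] at he
  refine ⟨t, ht.trans ?_, he⟩
  simp only [Polynomial.eval_comp, Polynomial.eval_add, Polynomial.eval_mul,
    Polynomial.eval_ofNat, Polynomial.eval_X, Polynomial.eval_one]
  exact poly_mono q (size_enc_le x)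

/-- a function on strings computed by a program on trees, relative to all oracles -/
structure Cpt (f : List Bool → List Bool) (F : Tr → Tr) : Prop where
  eq : ∀ w, F (enc w) = enc (f w)
  fp : ∀ (O : List Bool → Bool) (G : Tr → Tr), FP O G → FP O (fun v => F (G v))

/-- the same with two arguments -/
structure Cpt₂ (f : List Bool → List Bool → List Bool) (F : Tr → Tr → Tr) : Prop where
  eq : ∀ w q, F (enc w) (enc q) = enc (f w q)
  fp : ∀ (O : List Bool → Bool) (G H : Tr → Tr), FP O G → FP O H → FP O (fun v => F (G v) (H v))

/-- **Second level sets are in P/poly** if a table of the true statements is hidden behind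
passwords. -/
theorem inPPoly_of_table {cd : List Bool → List Bool → List Bool} {cdT : Tr → Tr → Tr}
    (hcd : Cpt₂ cd cdT) {wm : ℕ → List Bool} (hwm : ∀ n, (wm n).length ≤ n)
    (hleg : ∀ q : List Bool, O (cd (wm q.length) q) = true ↔ Stt O q) {L : Set (List Bool)}
    (hL : InSigma2 O L) : InPPoly O L := by
  obtain ⟨i, k, n, hi⟩ := exists_stt hL
  obtain ⟨Pk, hk1, hk2⟩ := exists_polyT k
  obtain ⟨Pn, hn1, hn2⟩ := exists_polyT n
  refine ⟨{z | O (cd (un1 z) (ins (k.eval (un2 z).length) (n.eval (un2 z).length) i (un2 z))) =
    true}, fun l => wm (k.eval l + n.eval l + i + l + 3), ?_, ?_, fun x => ?_⟩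
  · have h1 : FP O (fun v => un1T v) := FP.un1T' FP.id'
    have h2 : FP O (fun v => un2T v) := FP.un2T' FP.id'
    have h3 := FP.query' (hcd.fp O _ _ h1 (FP.insT' (hk2 O _ h2) (hn2 O _ h2)
      (FP.const' (num i)) h2))
    refine inP_of_FP h3 (fun x => ?_)
    rw [un1T_enc, un2T_enc, insT_eq, hcd.eq, dec_enc, hk1, hn1, len_num, len_num, len_num,
      len_enc]
  · refine ⟨k + n + Polynomial.C i + Polynomial.X + 3, fun l => ?_⟩
    refine (hwm _).trans ?_
    simp
  · rw [Set.mem_ofPred_eq, un1_pr, un2_pr, hi x, ← hleg, ins_length]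

/-! ### searching for the password with an NP oracle -/

/-- some password begins with `p` and has `m` more letters -/
def Ext (O : List Bool → Bool) (pw : List Bool → List Bool) (m : ℕ) (p : List Bool) : Prop :=
  ∃ y : List Bool, y.length = m ∧ O (pw (p ++ y)) = true

open Classical in
/-- greedy search: `m` more letters are chosen -/
noncomputable def grd (O : List Bool → Bool) (pw : List Bool → List Bool) :
    ℕ → List Bool → List Bool
  | 0, p => p
  | m + 1, p => grd O pw m (p ++ [decide (Ext O pw m (p ++ [true]))])

open Classical in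
/-- the NP oracle used in the search, joined with `O` -/
noncomputable def ora (O : List Bool → Bool) (pw : List Bool → List Bool) : List Bool → Bool :=
  join O (fun z => decide (Ext O pw (prs z).1 (prs z).2))

/-- the program of the verifier -/
private def verT (O : List Bool → Bool) (pwT : Tr → Tr) (v : Tr) : Tr :=
  cs (fst v) leaf
    (cs (fst (fst v)) (bit (O (dec (snd (fst v)))))
      (cs (dropU (fst (parseT (snd (fst v)))) (snd v))
        (cs (dropU (snd v) (fst (parseT (snd (fst v)))))
          (bit (O (dec (pwT (appT (fst (snd (parseT (snd (fst v))))) (snd v)))))) leaf) leaf))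

private theorem FP_verT {pw : List Bool → List Bool} {pwT : Tr → Tr} (hpw : Cpt pw pwT) :
    FP O (verT O pwT) := by
  have h1 : FP O (fun v => fst v) := FP.fst' FP.id'
  have h2 : FP O (fun v => snd v) := FP.snd' FP.id'
  have h3 : FP O (fun v => snd (fst v)) := FP.snd' h1
  have h4 := FP.parseT' h3
  exact FP.cs' h1 FP.leaf' (FP.cs' (FP.fst' h1) (FP.query' h3)
    (FP.cs' (FP.dropU' (FP.fst' h4) h2) (FP.cs' (FP.dropU' h2 (FP.fst' h4))
      (FP.query' (hpw.fp O _ (FP.appT' (FP.fst' (FP.snd' h4)) h2))) FP.leaf') FP.leaf'))

/-- the verifier -/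
private def ver (O : List Bool → Bool) (pw : List Bool → List Bool) (x y : List Bool) : Bool :=
  match x with
  | [] => false
  | false :: w => O w
  | true :: z => decide (y.length = (prs z).1) && O (pw ((prs z).2 ++ y))

private theorem verT_eq {pw : List Bool → List Bool} {pwT : Tr → Tr} (hpw : Cpt pw pwT)
    (x y : List Bool) : verT O pwT (node (enc x) (enc y)) = bit (ver O pw x y) := by
  unfold verT ver
  rcases x with _ | ⟨b, z⟩
  · simp [enc, bit]
  · cases b
    · have e : fst (node (enc (false :: z)) (enc y)) ≠ leaf := by simp [enc]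
      rw [cs_neg _ _ e, cs_pos _ _ (by simp [enc, bit])]
      simp [enc]
    · have e : fst (node (enc (true :: z)) (enc y)) ≠ leaf := by simp [enc]
      rw [cs_neg _ _ e, cs_neg _ _ (by simp [enc, bit])]
      have e2 : snd (fst (node (enc (true :: z)) (enc y))) = enc z := by simp [enc]
      rw [e2, fst_parseT, snd_parseT, snd_node, appT_enc, hpw.eq, dec_enc]
      by_cases h1 : y.length ≤ (prs z).1
      · rw [cs_pos _ _ (by rw [dropU_eq_leaf, len_enc, len_num]; exact h1)]
        by_cases h2 : (prs z).1 ≤ y.length
        · rw [cs_pos _ _ (by rw [dropU_eq_leaf, len_enc, len_num]; exact h2)]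
          simp [show y.length = (prs z).1 by omega]
        · rw [cs_neg _ _ (by rw [ne_eq, dropU_eq_leaf, len_enc, len_num]; exact h2)]
          simp [show y.length ≠ (prs z).1 by omega, bit]
      · rw [cs_neg _ _ (by rw [ne_eq, dropU_eq_leaf, len_enc, len_num]; exact h1)]
        simp [show y.length ≠ (prs z).1 by omega, bit]

theorem inNP_ora {pw : List Bool → List Bool} {pwT : Tr → Tr} (hpw : Cpt pw pwT) :
    InNP O {x | ora O pw x = true} := by
  refine ⟨ver O pw, Polynomial.X, polyTimeRel_of_FP (FP_verT hpw) (fun x y => ?_), fun x => ?_⟩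
  · rw [verT_eq hpw, TS.bit_ne_leaf]
  · rw [Set.mem_ofPred_eq, Polynomial.eval_X]
    rcases x with _ | ⟨b, z⟩
    · simp [ora, join, ver]
    · cases b
      · constructor
        · intro h
          exact ⟨[], by simp, h⟩
        · rintro ⟨y, _, h⟩
          exact h
      · simp only [ora, join, decide_eq_true_eq, ver, Bool.and_eq_true, Ext, List.length_cons]
        constructor
        · rintro ⟨y, hy, h⟩
          refine ⟨y, ?_, hy, h⟩
          have := prs_le z
          omega
        · rintro ⟨y, _, hy, h⟩
          exact ⟨y, hy, h⟩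

/-- one step of the search; states are `node (counter) (reversed prefix)` -/
def gstep (A : List Bool → Bool) (s : Tr) : Tr :=
  node (snd (fst s)) (node (bit (A (dec (node tt (onesPre (snd (fst s))
    (node leaf (revN (node tt (snd s))))))))) (snd s))

/-- the search for the password -/
def srch (A : List Bool → Bool) (q : Tr) : Tr := revN (snd ((gstep A)^[len q] (node q leaf)))

theorem FP.srch' {A : List Bool → Bool} {F : Tr → Tr} (hF : FP A F) :
    FP A (fun v => srch A (F v)) := by
  have hd : FP A (fun s => gstep A s) := by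
    have h1 : FP A (fun v => snd (fst v)) := FP.snd' (FP.fst' FP.id')
    have h2 : FP A (fun v => snd v) := FP.snd' FP.id'
    exact FP.node' h1 (FP.node' (FP.query' (FP.node' (FP.const' _) (FP.onesPre' h1
      (FP.node' FP.leaf' (FP.revN' (FP.node' (FP.const' _) h2)))))) h2)
  refine FP.revN' (FP.snd' (FP.iterate_add hd hF (FP.node' hF FP.leaf') 10 (fun x => ?_)))
  have a1 := size_snd_le (fst x)
  have a2 : size (fst x) + size (snd x) ≤ size x + 1 := by
    cases x with
    | leaf => simp [size]
    | node p q => simp [size]; omega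
  have a3 := size_bit_le (A (dec (node tt (onesPre (snd (fst x))
    (node leaf (revN (node tt (snd x))))))))
  simp only [gstep, size]
  omega

open Classical in
theorem gstep_iter (O : List Bool → Bool) (pw : List Bool → List Bool) (m : ℕ) :
    ∀ (C : Tr) (p : List Bool), len C = m →
      snd ((gstep (ora O pw))^[m] (node C (enc p.reverse))) = enc (grd O pw m p).reverse := by
  induction m with
  | zero => intro C p _; rfl
  | succ m ih =>
    intro C p hC
    rw [Function.iterate_succ_apply]
    obtain ⟨a, C', rfl⟩ : ∃ a C', C = node a C' := by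
      cases C with
      | leaf => simp [len] at hC
      | node a b => exact ⟨a, b, rfl⟩
    have hC' : len C' = m := by simpa [len] using hC
    have e1 : dec (node tt (onesPre C' (node leaf (revN (node tt (enc p.reverse)))))) =
        true :: (List.replicate m true ++ false :: (p ++ [true])) := by
      have h1 : node tt (enc p.reverse) = enc (true :: p.reverse) := rfl
      have h2 : ∀ w, node leaf (enc w) = enc (false :: w) := fun w => rfl
      have h3 : ∀ w, node tt (enc w) = enc (true :: w) := fun w => rfl
      rw [h1, revN_eq, dec_enc, h2, onesPre_enc, h3, dec_enc, hC']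
      simp
    have e2 : ora O pw (true :: (List.replicate m true ++ false :: (p ++ [true]))) =
        decide (Ext O pw m (p ++ [true])) := by
      simp only [ora, join, prs_ones]
    have e3 : gstep (ora O pw) (node (node a C') (enc p.reverse)) =
        node C' (enc (p ++ [decide (Ext O pw m (p ++ [true]))]).reverse) := by
      simp only [gstep, fst_node, snd_node]
      rw [e1, e2]
      simp [enc]
    rw [e3, ih C' _ hC', grd]

theorem srch_eq (O : List Bool → Bool) (pw : List Bool → List Bool) (q : List Bool) :
    srch (ora O pw) (enc q) = enc (grd O pw q.length []) := by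
  have h := gstep_iter O pw q.length (enc q) [] (len_enc q)
  have e : (enc ([] : List Bool).reverse) = leaf := rfl
  rw [e] at h
  rw [srch, len_enc, h, revN_eq, dec_enc, List.reverse_reverse]

/-- **Second level sets are in P^(NP^O)** if a table of the true statements is hidden behind
passwords that are found by greedy search. -/
theorem inPNP_of_table {cd : List Bool → List Bool → List Bool} {cdT : Tr → Tr → Tr}
    (hcd : Cpt₂ cd cdT) {pw : List Bool → List Bool} {pwT : Tr → Tr} (hpw : Cpt pw pwT)
    (hleg : ∀ q : List Bool, O (cd (grd O pw q.length []) q) = true ↔ Stt O q)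
    {L : Set (List Bool)} (hL : InSigma2 O L) : InPNP O L := by
  obtain ⟨i, k, n, hi⟩ := exists_stt hL
  obtain ⟨Pk, hk1, hk2⟩ := exists_polyT k
  obtain ⟨Pn, hn1, hn2⟩ := exists_polyT n
  refine ⟨ora O pw, inNP_ora hpw, ?_⟩
  have h1 : FP (ora O pw) (fun v => insT (Pk v) (Pn v) (num i) v) :=
    FP.insT' (hk2 _ _ FP.id') (hn2 _ _ FP.id') (FP.const' _) FP.id'
  have h2 := FP.query' (FP.node' FP.leaf' (hcd.fp _ _ _ (FP.srch' h1) h1))
  have h3 := inP_of_FP h2 (χ := fun x => O (cd (grd O pw (ins (k.eval x.length)
    (n.eval x.length) i x).length []) (ins (k.eval x.length) (n.eval x.length) i x)))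
    (fun x => by
      have e : ∀ w, node leaf (enc w) = enc (false :: w) := fun w => rfl
      rw [insT_eq, hk1, hn1, len_num, len_num, len_num, len_enc, srch_eq, hcd.eq, e, dec_enc]
      rfl)
  have h4 : L = {x | O (cd (grd O pw (ins (k.eval x.length)
    (n.eval x.length) i x).length []) (ins (k.eval x.length) (n.eval x.length) i x)) = true} := by
    ext x
    rw [Set.mem_ofPred_eq, hleg, hi x]
  rw [h4]
  exact h3

end Pool.Agent.H65.EW
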