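import Pool.Agent.H65.EW.Gen

set_option autoImplicit false

/-!
# Conditions and their extensions
-/

namespace Pool.Agent.H65.EW

open Pool.Agent.H88.RO Pool.Agent.H88.RO.Tr Pool.Agent.H65.TS Pool.Agent.H65.NU

/-- the parameters of the construction -/
structure Prm where
  /-- lengths of the passwords -/
  l : ℕ → ℕ
  /-- truth of the statements -/
  tr : (List Bool → Bool) → List Bool → Prop
  htr : Loc tr
  /-- time bounds of the reductions: number, constant, length -/
  tau : ℕ → ℕ → ℕ → ℕ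
  /-- lengths of the strings in the regions -/
  rho : ℕ → Polynomial ℕ
  /-- the candidates: machine number, clock, length bound, number of the time bound -/
  dat : ℕ → ℕ × Polynomial ℕ × Polynomial ℕ × ℕ

/-- the position of a string in its region, backwards -/
def zprt : List Bool → List Bool
  | [] => []
  | _ :: s => (prs (prs s).2).2

@[simp] theorem zprt_rg (j b : ℕ) (z : List Bool) : zprt (rg j b z) = z := by
  simp [zprt, rg, prs_ones]

theorem rg_inj {j b j' b' : ℕ} {z z' : List Bool} (h : rg j b z = rg j' b' z') :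
    j = j' ∧ b = b' ∧ z = z' := by
  simp only [rg, List.cons.injEq, true_and] at h
  have h1 := congrArg prs h
  rw [prs_ones, prs_ones] at h1
  have h2 := congrArg Prod.fst h1
  have h3 := congrArg prs (congrArg Prod.snd h1)
  simp only at h2 h3
  rw [prs_ones, prs_ones] at h3
  exact ⟨h2, congrArg Prod.fst h3, congrArg Prod.snd h3⟩

/-- the output of the clocked machine is not larger than the clock -/
theorem size_of_U {O : List Bool → Bool} {c v w : Tr} {K : ℕ} (h : U O c v K = node leaf w) :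
    size w ≤ K := by
  unfold U out at h
  split_ifs at h with h1 h2 h3 h4
  have h5 : fst (snd ((cstep O K)^[K] (node c (node v leaf)))) = w := by
    injection h
  have h6 := size_fst_le (snd ((cstep O K)^[K] (node c (node v leaf))))
  have h7 := size_snd_le ((cstep O K)^[K] (node c (node v leaf)))
  rw [h5] at h6
  omega

namespace Prm

variable (P : Prm)

/-- solutions of the candidate number `j` -/
def sol (O : List Bool → Bool) (j : ℕ) (x y : List Bool) : Prop :=
  Usol O (P.dat j).1 ((P.dat j).2.1.eval x.length) ((P.dat j).2.2.1.eval x.length) x y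

/-- length of the strings in the region with numbers `j` and `b` -/
def r (j b : ℕ) : ℕ := (P.rho (P.dat j).2.2.2).eval b

/-- time bound for the reductions to candidate number `j`, with constant `C` -/
def tm (j C b : ℕ) : ℕ := P.tau (P.dat j).2.2.2 C b

/-- from `β` on, all regions with number `j` are nonempty -/
def Con (O : List Bool → Bool) (j β : ℕ) : Prop :=
  ∀ b, β ≤ b → ∃ z : List Bool, z.length = P.r j b ∧ O (rg j b z) = true

/-- the candidate number `j` is total -/
def Tot (O : List Bool → Bool) (j : ℕ) : Prop := ∀ x, ∃ y, P.sol O j x y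

end Prm

/-- Conditions: an oracle that is decided up to the length `m`, and constraints `j ∈ J`. -/
structure Cnd where
  /-- the oracle -/
  O : List Bool → Bool
  /-- the length up to which it is decided -/
  m : ℕ
  /-- active constraints -/
  J : Set ℕ
  /-- the constraint number `j` starts at `β j` -/
  β : ℕ → ℕ

/-- `O'` agrees with `O` below length `m` -/
def Agr (m : ℕ) (O' O : List Bool → Bool) : Prop := ∀ x : List Bool, x.length < m → O' x = O x

theorem Agr.mono {m m' : ℕ} {O' O : List Bool → Bool} (h : Agr m' O' O) (hm : m ≤ m') :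
    Agr m O' O := fun x hx => h x (by omega)

theorem Agr.trans {m : ℕ} {O1 O2 O3 : List Bool → Bool} (h : Agr m O1 O2) (h' : Agr m O2 O3) :
    Agr m O1 O3 := fun x hx => (h x hx).trans (h' x hx)

namespace Prm

variable (P : Prm)

/-- the legal oracles satisfying the condition -/
def CExt (c : Cnd) (O' : List Bool → Bool) : Prop :=
  Legal P.l P.tr O' ∧ Agr c.m O' c.O ∧ ∀ j ∈ c.J, P.Con O' j (c.β j)

/-- the legal oracles satisfying the condition except perhaps the constraint number `j` -/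
def CExt' (c : Cnd) (j : ℕ) (O' : List Bool → Bool) : Prop :=
  Legal P.l P.tr O' ∧ Agr c.m O' c.O ∧ ∀ j' ∈ c.J, j' ≠ j → P.Con O' j' (c.β j')

/-- valid conditions -/
def Val (c : Cnd) : Prop :=
  P.CExt c c.O ∧ ∀ j ∈ c.J, ∀ O', P.CExt' c j O' → P.Tot O' j

end Prm

/-- `c'` extends `c` -/
def Le (c' c : Cnd) : Prop :=
  c.m ≤ c'.m ∧ Agr c.m c'.O c.O ∧ ∀ j ∈ c.J, j ∈ c'.J ∧ c'.β j = c.β j

theorem Le.refl (c : Cnd) : Le c c := ⟨le_rfl, fun _ _ => rfl, fun _ hj => ⟨hj, rfl⟩⟩

theorem Le.trans {a b c : Cnd} (h : Le a b) (h' : Le b c) : Le a c :=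
  ⟨h'.1.trans h.1, (h.2.1.mono h'.1).trans h'.2.1, fun j hj =>
    ⟨(h.2.2 j (h'.2.2 j hj).1).1, (h.2.2 j (h'.2.2 j hj).1).2.trans (h'.2.2 j hj).2⟩⟩

variable {P : Prm}

theorem Le.ext {c' c : Cnd} (h : Le c' c) {O' : List Bool → Bool} (hE : P.CExt c' O') :
    P.CExt c O' :=
  ⟨hE.1, (hE.2.1.mono h.1).trans h.2.1, fun j hj => by
    rw [← (h.2.2 j hj).2]; exact hE.2.2 j (h.2.2 j hj).1⟩

theorem Le.ext' {c' c : Cnd} (h : Le c' c) {j : ℕ} {O' : List Bool → Bool}
    (hE : P.CExt' c' j O') : P.CExt' c j O' :=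
  ⟨hE.1, (hE.2.1.mono h.1).trans h.2.1, fun j' hj hne => by
    rw [← (h.2.2 j' hj).2]; exact hE.2.2 j' (h.2.2 j' hj).1 hne⟩

/-- passing to another oracle satisfying the condition -/
theorem val_of_ext {c : Cnd} (hc : P.Val c) {O' : List Bool → Bool} {m' : ℕ}
    (hO' : P.CExt c O') (hm : c.m ≤ m') :
    P.Val ⟨O', m', c.J, c.β⟩ ∧ Le ⟨O', m', c.J, c.β⟩ c := by
  have hle : Le ⟨O', m', c.J, c.β⟩ c := ⟨hm, hO'.2.1, fun _ hj => ⟨hj, rfl⟩⟩
  refine ⟨⟨⟨hO'.1, fun _ _ => rfl, hO'.2.2⟩, fun j hj O'' hO'' => ?_⟩, hle⟩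
  exact hc.2 j hj O'' (hle.ext' hO'')

/-- solutions of candidates are decided by a finite part of the oracle -/
theorem sol_congr {O O' : List Bool → Bool} {j : ℕ} {x y : List Bool} {m : ℕ}
    (h : Agr m O' O) (hm : (P.dat j).2.1.eval x.length < m) : P.sol O' j x y ↔ P.sol O j x y :=
  Usol_congr (fun q hq => h q (by omega))

/-- the candidate number `j` is partial in all oracles below the condition -/
def Part (P : Prm) (c : Cnd) (j : ℕ) : Prop :=
  ∃ x, ∀ O', Agr c.m O' c.O → ∀ y, ¬ P.sol O' j x y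

open Classical in
/-- fill the regions with number `j` from `m` on -/
noncomputable def fill (O : List Bool → Bool) (m j : ℕ) (x : List Bool) : Bool :=
  if ∃ b z, m ≤ b ∧ x = rg j b z then true else O x

/-- **First step**: the candidate is partial, or its constraint is active. -/
theorem stepA {c : Cnd} (hc : P.Val c) (j : ℕ) :
    ∃ c', P.Val c' ∧ Le c' c ∧ (j ∈ c'.J ∨ Part P c' j) := by
  classical
  by_cases hj : j ∈ c.J
  · exact ⟨c, hc, Le.refl c, Or.inl hj⟩
  by_cases ht : ∀ O', P.CExt c O' → P.Tot O' j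
  · -- activate the constraint
    have hA : Agr c.m (fill c.O c.m j) c.O := by
      intro x hx
      unfold fill
      rw [if_neg]
      rintro ⟨b, z, hb, rfl⟩
      rw [rg_length] at hx
      omega
    have hO' : Agr c.m (Phi P.l P.tr (fill c.O c.m j)) c.O := Phi_eq_of_lt P.htr hc.1.1 hA
    have hle : Le ⟨Phi P.l P.tr (fill c.O c.m j), c.m, insert j c.J,
        Function.update c.β j c.m⟩ c := by
      refine ⟨le_rfl, hO', fun j' hj' => ⟨Set.mem_insert_of_mem _ hj', ?_⟩⟩
      show Function.update c.β j c.m j' = c.β j'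
      rw [Function.update_of_ne]
      rintro rfl
      exact hj hj'
    refine ⟨_, ⟨⟨legal_Phi P.htr _, fun _ _ => rfl, ?_⟩, ?_⟩, hle, Or.inl (Set.mem_insert _ _)⟩
    · intro j' hj'
      show P.Con (Phi P.l P.tr (fill c.O c.m j)) j' (Function.update c.β j c.m j')
      rcases Set.mem_insert_iff.mp hj' with rfl | hj1
      · rw [Function.update_self]
        intro b hb
        refine ⟨List.replicate (P.r j' b) false, by simp, ?_⟩
        rw [Phi_rg]
        unfold fill
        rw [if_pos ⟨b, _, hb, rfl⟩]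
      · rw [Function.update_of_ne (by rintro rfl; exact hj hj1)]
        intro b hb
        obtain ⟨z, hz, h1⟩ := hc.1.2.2 j' hj1 b hb
        refine ⟨z, hz, ?_⟩
        rw [Phi_rg]
        unfold fill
        split_ifs
        · rfl
        · exact h1
    · intro j' hj' O'' hO''
      rcases Set.mem_insert_iff.mp hj' with rfl | hj1
      · refine ht O'' ⟨hO''.1, hO''.2.1.trans hO', fun j1 hj1 => ?_⟩
        have hne : j1 ≠ j' := by rintro rfl; exact hj hj1
        have := hO''.2.2 j1 (Set.mem_insert_of_mem _ hj1) hne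
        have e : Function.update c.β j' c.m j1 = c.β j1 := Function.update_of_ne hne _ _
        rw [← e]
        exact this
      · exact hc.2 j' hj1 O'' (hle.ext' hO'')
  · -- make the candidate partial
    push Not at ht
    obtain ⟨O', hE, hT⟩ := ht
    unfold Prm.Tot at hT
    push Not at hT
    obtain ⟨x, hx⟩ := hT
    obtain ⟨h1, h2⟩ := val_of_ext hc hE (m' := c.m + (P.dat j).2.1.eval x.length + 1) (by omega)
    refine ⟨_, h1, h2, Or.inr ⟨x, fun O'' hA y hy => hx y ?_⟩⟩
    exact (sol_congr hA (by show _ < c.m + (P.dat j).2.1.eval x.length + 1; omega)).mp hy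

/-! ### the diagonal step -/

/-- the reduction given by the programs `cf` and `cg` fails at `1^b` -/
def Bad (P : Prm) (O : List Bool → Bool) (j C : ℕ) (cf cg : Prog) (b : ℕ) : Prop :=
  ∀ s : List Bool, U O (code cf) (enc (List.replicate b true))
      ((size (code cf) + 10) * P.tm j C b + 10) = node leaf (enc s) →
    ∃ y, P.sol O j s y ∧ ∀ w : List Bool,
      U O (code cg) (node (enc (List.replicate b true)) (enc y))
        ((size (code cg) + 10) * P.tm j C b + 10) = node leaf (enc w) →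
      ¬ (w.length = P.r j b ∧ O (rg j b w) = true)

open Classical in
/-- empty the region with numbers `j` and `b` and all sets of passwords, from length `m` on, and
put all other strings into the oracle -/
noncomputable def cut (O : List Bool → Bool) (m j b : ℕ) (x : List Bool) : Bool :=
  if x.length < m then O x
  else if (∃ n w, x = pw n w) ∨ ∃ z, x = rg j b z then false else true

theorem cut_low (O : List Bool → Bool) (m j b : ℕ) : Agr m (cut O m j b) O := by
  intro x hx
  unfold cut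
  rw [if_pos hx]

theorem cut_con {O : List Bool → Bool} {m j b j' b' : ℕ} (hne : ¬ (j' = j ∧ b' = b)) {r : ℕ}
    (h : ∃ z : List Bool, z.length = r ∧ O (rg j' b' z) = true) :
    ∃ z : List Bool, z.length = r ∧ cut O m j b (rg j' b' z) = true := by
  obtain ⟨z, hz, h1⟩ := h
  refine ⟨z, hz, ?_⟩
  unfold cut
  split_ifs with h2 h3
  · exact h1
  · exfalso
    rcases h3 with ⟨n, w, h3⟩ | ⟨z', h3⟩
    · exact rg_ne_pw _ _ _ _ _ h3
    · exact hne ⟨(rg_inj h3).1, (rg_inj h3).2.1⟩
  · rfl

theorem cut_rg {O : List Bool → Bool} {m j b : ℕ} (hb : m ≤ b) (z : List Bool) :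
    cut O m j b (rg j b z) = false := by
  unfold cut
  rw [if_neg (by rw [rg_length]; omega), if_pos (Or.inr ⟨z, rfl⟩)]

theorem cut_pw {O : List Bool → Bool} {m j b n : ℕ} (hn : m ≤ n) (w : List Bool) :
    cut O m j b (pw n w) = false := by
  unfold cut
  rw [if_neg (by rw [pw_length]; omega), if_pos (Or.inl ⟨n, w, rfl⟩)]

/-- The counting hypothesis. -/
def Prm.Cnt (P : Prm) : Prop :=
  ∀ (e C : ℕ) (q : Polynomial ℕ), ∃ b0, ∀ b, b0 ≤ b →
    q.eval (P.tau e C b) < 2 ^ (P.rho e).eval b ∧
      ∀ n, (P.rho e).eval b ≤ n → q.eval (P.tau e C b) < 2 ^ P.l n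

/-- **Second step**: a reduction is made to fail. -/
theorem stepB (hH : P.Cnt) {c : Cnd} (hc : P.Val c) {j : ℕ} (hj : j ∈ c.J) (C : ℕ)
    (cf cg : Prog) : ∃ c', P.Val c' ∧ Le c' c ∧ ∃ b, c.β j ≤ b ∧ ∀ O', Agr c'.m O' c'.O →
      Bad P O' j C cf cg b := by
  classical
  -- the counting
  let pf : Polynomial ℕ := Polynomial.C (size (code cf) + 10) * Polynomial.X + 10
  let pg : Polynomial ℕ := Polynomial.C (size (code cg) + 10) * Polynomial.X + 10
  obtain ⟨b0, hb0⟩ := hH (P.dat j).2.2.2 C (pf + (P.dat j).2.1.comp pf + pg + 2)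
  obtain ⟨b, hbm, hbβ, hbb⟩ : ∃ b, c.m ≤ b ∧ c.β j ≤ b ∧ b0 ≤ b :=
    ⟨c.m + c.β j + b0, by omega, by omega, by omega⟩
  obtain ⟨hc1, hc2⟩ := hb0 b hbb
  have hpf : pf.eval (P.tm j C b) = (size (code cf) + 10) * P.tm j C b + 10 := by simp [pf]
  have hpg : pg.eval (P.tm j C b) = (size (code cg) + 10) * P.tm j C b + 10 := by simp [pg]
  have hev : (pf + (P.dat j).2.1.comp pf + pg + 2).eval (P.tau (P.dat j).2.2.2 C b) =
      ((size (code cf) + 10) * P.tm j C b + 10) +
        (P.dat j).2.1.eval ((size (code cf) + 10) * P.tm j C b + 10) +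
        ((size (code cg) + 10) * P.tm j C b + 10) + 2 := by
    have e : P.tau (P.dat j).2.2.2 C b = P.tm j C b := rfl
    rw [e]
    simp only [Polynomial.eval_add, Polynomial.eval_comp, hpf, hpg, Polynomial.eval_ofNat]
  rw [hev] at hc1
  rw [hev] at hc2
  set K1 := (size (code cf) + 10) * P.tm j C b + 10 with hK1
  set K2 := (size (code cg) + 10) * P.tm j C b + 10 with hK2
  have hr : (P.rho (P.dat j).2.2.2).eval b = P.r j b := rfl
  rw [hr] at hc1 hc2
  -- the oracle with an empty region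
  set O1 := Phi P.l P.tr (cut c.O c.m j b) with hO1
  have hO1l : Legal P.l P.tr O1 := legal_Phi P.htr _
  have hO1a : Agr c.m O1 c.O := Phi_eq_of_lt P.htr hc.1.1 (cut_low _ _ _ _)
  have hO1c : ∀ j' ∈ c.J, ∀ b', c.β j' ≤ b' → ¬ (j' = j ∧ b' = b) →
      ∃ z : List Bool, z.length = P.r j' b' ∧ O1 (rg j' b' z) = true := by
    intro j' hj' b' hb' hne
    obtain ⟨z, hz, h1⟩ := cut_con (m := c.m) hne (hc.1.2.2 j' hj' b' hb')
    exact ⟨z, hz, by rw [hO1, Phi_rg]; exact h1⟩
  have hO1e : ∀ z, O1 (rg j b z) = false := fun z => by rw [hO1, Phi_rg]; exact cut_rg hbm z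
  have hO1p : ∀ n w, c.m ≤ n → O1 (pw n w) = false := fun n w hn => by
    rw [hO1, Phi_pw]; exact cut_pw hn w
  have hT : P.Tot O1 j := hc.2 j hj O1 ⟨hO1l, hO1a, fun j' hj' hne b' hb' =>
    hO1c j' hj' b' hb' (fun h => hne h.1)⟩
  set x1 := List.replicate b true with hx1
  -- the finite set of positions read
  obtain ⟨Q, w0, hQc, hQ⟩ : ∃ (Q : Finset (List Bool)) (w0 : List Bool),
      Q.card + 1 < 2 ^ P.r j b ∧ (∀ n, P.r j b ≤ n → Q.card < 2 ^ P.l n) ∧
      ∀ O' : List Bool → Bool, (∀ q ∈ Q, O' q = O1 q) →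
        ∀ s : List Bool, U O' (code cf) (enc x1) K1 = node leaf (enc s) →
          (P.dat j).2.1.eval s.length ≤ (P.dat j).2.1.eval K1 ∧
          ∃ y, P.sol O' j s y ∧ ∀ w : List Bool,
            U O' (code cg) (node (enc x1) (enc y)) K2 = node leaf (enc w) → w = w0 := by
    obtain ⟨Q1, hQ1, _, hQ1'⟩ := U_local O1 (code cf) (enc x1) K1
    by_cases hs : ∃ s : List Bool, U O1 (code cf) (enc x1) K1 = node leaf (enc s)
    · obtain ⟨s, hs⟩ := hs
      have hs1 := size_of_U hs
      have hs2 : s.length ≤ K1 := by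
        have h1 := len_le_size (enc s)
        rw [len_enc] at h1
        omega
      have hs3 : (P.dat j).2.1.eval s.length ≤ (P.dat j).2.1.eval K1 := poly_mono _ hs2
      obtain ⟨y, hy⟩ := hT s
      obtain ⟨Q2, hQ2, _, hQ2'⟩ := U_local O1 (mach (P.dat j).1) (node (enc s) (enc y))
        ((P.dat j).2.1.eval s.length)
      obtain ⟨Q3, hQ3, _, hQ3'⟩ := U_local O1 (code cg) (node (enc x1) (enc y)) K2
      have hcard : (Q1 ∪ Q2 ∪ Q3).card ≤ K1 + (P.dat j).2.1.eval K1 + K2 := by
        refine (Finset.card_union_le _ _).trans ?_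
        have := Finset.card_union_le Q1 Q2
        omega
      refine ⟨Q1 ∪ Q2 ∪ Q3, dec (snd (U O1 (code cg) (node (enc x1) (enc y)) K2)), by omega,
        fun n hn => by have := hc2 n hn; omega, fun O' hO' s' hs' => ?_⟩
      have e1 := hQ1' O' (fun q hq => hO' q (by simp [hq]))
      have e2 := hQ2' O' (fun q hq => hO' q (by simp [hq]))
      have e3 := hQ3' O' (fun q hq => hO' q (by simp [hq]))
      have hss : s' = s := by
        rw [e1, hs] at hs'
        injection hs' with _ h2
        have := congrArg dec h2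
        rw [dec_enc, dec_enc] at this
        exact this.symm
      subst hss
      refine ⟨hs3, y, ?_, fun w hw => ?_⟩
      · show Usol O' _ _ _ _ _
        unfold Usol
        rw [e2]
        exact hy
      · rw [e3] at hw
        rw [hw, snd_node, dec_enc]
    · refine ⟨Q1, [], by omega, fun n hn => by have := hc2 n hn; omega,
        fun O' hO' s' hs' => ?_⟩
      rw [hQ1' O' hO'] at hs'
      exact absurd ⟨s', hs'⟩ hs
  obtain ⟨hQ2, hQ3⟩ := hQ
  -- the new string in the region
  obtain ⟨z, hz, hzS⟩ := exists_word (insert w0 (Q.image zprt)) (P.r j b) (by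
    have h1 := Finset.card_insert_le w0 (Q.image zprt)
    have h2 := Finset.card_image_le (s := Q) (f := zprt)
    omega)
  have hzw : z ≠ w0 := fun h => hzS (by rw [h]; exact Finset.mem_insert_self _ _)
  have hzQ : rg j b z ∉ Q := fun h => hzS (Finset.mem_insert_of_mem
    (Finset.mem_image.mpr ⟨_, h, zprt_rg _ _ _⟩))
  -- the new passwords
  obtain ⟨W, hW1, hW2⟩ := exists_words (l := P.l) Q (L := (rg j b z).length) (fun n hn => by
    refine hQ2 n ?_
    rw [rg_length] at hn
    omega)
  have hno : ∀ n, (rg j b z).length ≤ n → ∀ w : List Bool, w.length = P.l n →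
      O1 (pw n w) = false := by
    intro n hn w _
    refine hO1p n w ?_
    rw [rg_length] at hn
    omega
  set O2 := Phi P.l P.tr (addT O1 (rg j b z).length (rg j b z) W) with hO2
  have hrep : ∀ x : List Bool, x ≠ rg j b z → (∀ n, (rg j b z).length ≤ n → x ≠ pw n (W n)) →
      (∀ q : List Bool, (rg j b z).length ≤ q.length → x ≠ cd (W q.length) q) → O2 x = O1 x :=
    fun x h1 h2 h3 => repair P.htr hO1l hno rfl (fun n w => rg_ne_pw _ _ _ _ _)
      (fun w q => rg_ne_cd _ _ _ _ _) hW1 h1 h2 h3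
  have hO2Q : ∀ q ∈ Q, O2 q = O1 q := by
    intro q hq
    obtain ⟨h1, h2⟩ := hW2 q hq
    refine hrep q ?_ h1 h2
    rintro rfl
    exact hzQ hq
  have hO2l : Legal P.l P.tr O2 := legal_Phi P.htr _
  have hO2a : Agr c.m O2 O1 := by
    intro x hx
    have hL : (rg j b z).length = j + b + z.length + 3 := rg_length j b z
    refine hrep x ?_ (fun n hn h => ?_) (fun q hq h => ?_)
    · rintro rfl; omega
    · rw [h, pw_length] at hx; omega
    · rw [h, cd_length] at hx; omega
  have hO2z : O2 (rg j b z) = true := by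
    rw [hO2, Phi_rg]
    unfold addT
    rw [if_pos (Or.inl rfl)]
  have hO2r : ∀ j' b' z', rg j' b' z' ≠ rg j b z → O2 (rg j' b' z') = O1 (rg j' b' z') :=
    fun j' b' z' h => hrep _ h (fun n _ => rg_ne_pw _ _ _ _ _) (fun q _ => rg_ne_cd _ _ _ _ _)
  have hE : P.CExt c O2 := by
    refine ⟨hO2l, hO2a.trans hO1a, fun j' hj' b' hb' => ?_⟩
    by_cases hne : j' = j ∧ b' = b
    · obtain ⟨rfl, rfl⟩ := hne
      exact ⟨z, hz, hO2z⟩
    · obtain ⟨z', hz', h1⟩ := hO1c j' hj' b' hb' hne
      refine ⟨z', hz', ?_⟩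
      rw [hO2r _ _ _ (fun h => hne ?_)]
      · exact h1
      · obtain ⟨h2, h3, _⟩ := rg_inj h
        exact ⟨h2, h3⟩
  obtain ⟨hv, hle⟩ := val_of_ext hc hE (m' := c.m + K1 + (P.dat j).2.1.eval K1 + K2 +
    (j + b + P.r j b + 3) + 1) (by omega)
  refine ⟨_, hv, hle, b, hbβ, fun O' hA => ?_⟩
  replace hA : Agr (c.m + K1 + (P.dat j).2.1.eval K1 + K2 + (j + b + P.r j b + 3) + 1) O' O2 :=
    hA
  intro s hs
  have hs' : U O2 (code cf) (enc x1) K1 = node leaf (enc s) := by
    rw [← U_local' (O := O2) (O' := O') _ _ K1 (fun q hq => hA q (by omega))]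
    exact hs
  obtain ⟨h1, y, hy, hw⟩ := hQ3 O2 hO2Q s hs'
  refine ⟨y, (sol_congr hA (by omega)).mpr hy, fun w hw' => ?_⟩
  have hw1 : U O2 (code cg) (node (enc x1) (enc y)) K2 = node leaf (enc w) := by
    rw [← U_local' (O := O2) (O' := O') _ _ K2 (fun q hq => hA q (by omega))]
    exact hw'
  have hw2 := hw w hw1
  rintro ⟨h3, h4⟩
  rw [hA _ (by rw [rg_length]; omega), hO2r _ _ _ (fun h => hzw (by
    rw [← (rg_inj h).2.2, hw2])), hO1e] at h4
  cases h4

end Pool.Agent.H65.EW
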