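import Pool.Agent.H65.EW.Srch

set_option autoImplicit false

/-!
# Legal oracles: tables of the true statements, hidden behind passwords
-/

namespace Pool.Agent.H65.EW

open Pool.Agent.H88.RO Pool.Agent.H88.RO.Tr Pool.Agent.H65.TS Pool.Agent.H65.NU

/-- The truth of the statement `q` depends only on the oracle up to the length of `q`. -/
def Loc (tr : (List Bool → Bool) → List Bool → Prop) : Prop :=
  ∀ (O O' : List Bool → Bool) (q : List Bool),
    (∀ w : List Bool, w.length ≤ q.length → O' w = O w) → (tr O' q ↔ tr O q)

theorem loc_Stt : Loc Stt := fun _ _ _ h => Stt_congr h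

/-- the position of the password `w` for the statements of length `n` -/
def pw (n : ℕ) (w : List Bool) : List Bool :=
  false :: false :: (List.replicate n true ++ false :: w)

/-- the position of the statement `q` behind the password `w` -/
def cd (w q : List Bool) : List Bool := false :: true :: pr w q

@[simp] theorem pw_length (n : ℕ) (w : List Bool) : (pw n w).length = n + w.length + 3 := by
  simp [pw]; ring

@[simp] theorem cd_length (w q : List Bool) :
    (cd w q).length = 2 * w.length + q.length + 3 := by
  simp [cd, pr]; ring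

theorem pw_inj {n n' : ℕ} {w w' : List Bool} (h : pw n w = pw n' w') : n = n' ∧ w = w' := by
  simp only [pw, List.cons.injEq, true_and] at h
  have h1 := congrArg prs h
  rw [prs_ones, prs_ones] at h1
  exact ⟨congrArg Prod.fst h1, congrArg Prod.snd h1⟩

theorem cd_inj {w w' q q' : List Bool} (h : cd w q = cd w' q') : w = w' ∧ q = q' := by
  simp only [cd, List.cons.injEq, true_and] at h
  have h1 := congrArg un1 h
  have h2 := congrArg un2 h
  rw [un1_pr, un1_pr] at h1
  rw [un2_pr, un2_pr] at h2
  exact ⟨h1, h2⟩

theorem pw_ne_cd (n : ℕ) (w w' q : List Bool) : pw n w ≠ cd w' q := by simp [pw, cd]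
theorem rg_ne_pw (n : ℕ) (w z : List Bool) (j b : ℕ) : rg j b z ≠ pw n w := by simp [pw, rg]
theorem rg_ne_cd (w q z : List Bool) (j b : ℕ) : rg j b z ≠ cd w q := by simp [cd, rg]

variable (l : ℕ → ℕ) (tr : (List Bool → Bool) → List Bool → Prop)

/-- `w` opens the table of the statements of length `n`: it is a password, or it is the string
of zeros and there is no password. -/
def Pass (O : List Bool → Bool) (n : ℕ) (w : List Bool) : Prop :=
  w.length = l n ∧ (O (pw n w) = true ∨
    (w = List.replicate (l n) false ∧ ∀ w' : List Bool, w'.length = l n → O (pw n w') = false))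

/-- The oracle is legal: behind each password for `n` there is the table of the truth values of
the statements of length `n`. -/
def Legal (O : List Bool → Bool) : Prop :=
  ∀ q w : List Bool, Pass l O q.length w → (O (cd w q) = true ↔ tr O q)

variable {l tr}

theorem exists_pass (O : List Bool → Bool) (n : ℕ) : ∃ w, Pass l O n w := by
  by_cases h : ∃ w : List Bool, w.length = l n ∧ O (pw n w) = true
  · obtain ⟨w, h1, h2⟩ := h
    exact ⟨w, h1, Or.inl h2⟩
  · refine ⟨List.replicate (l n) false, by simp, Or.inr ⟨rfl, fun w' hw' => ?_⟩⟩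
    by_contra h1
    exact h ⟨w', hw', by simpa using h1⟩

theorem Pass_congr {O O' : List Bool → Bool} {n : ℕ} {w : List Bool}
    (h : ∀ w' : List Bool, w'.length = l n → O' (pw n w') = O (pw n w')) :
    Pass l O' n w ↔ Pass l O n w := by
  have h1 : (∀ w' : List Bool, w'.length = l n → O' (pw n w') = false) ↔
      (∀ w' : List Bool, w'.length = l n → O (pw n w') = false) :=
    forall_congr' fun w' => forall_congr' fun hw' => by rw [h w' hw']
  unfold Pass
  refine and_congr_right fun hw => ?_
  rw [h w hw, h1]

variable (l tr)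

open Classical in
/-- making an oracle legal -/
noncomputable def Phi (A : List Bool → Bool) : List Bool → Bool :=
  WellFounded.fix (measure (fun x : List Bool => x.length)).wf (fun x rec =>
    if h : ∃ q w : List Bool, x = cd w q ∧ Pass l A q.length w then
      decide (tr (fun y => if hy : y.length < x.length then rec y hy else false) h.choose)
    else A x)

open Classical in
theorem Phi_eq (A : List Bool → Bool) (x : List Bool) : Phi l tr A x =
    if h : ∃ q w : List Bool, x = cd w q ∧ Pass l A q.length w then
      decide (tr (fun y => if y.length < x.length then Phi l tr A y else false) h.choose)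
    else A x := by
  unfold Phi
  rw [WellFounded.fix_eq]
  rfl

variable {l tr}

theorem Phi_code (htr : Loc tr) (A : List Bool → Bool) {q w : List Bool}
    (hp : Pass l A q.length w) : Phi l tr A (cd w q) = true ↔ tr (Phi l tr A) q := by
  classical
  have h : ∃ q' w' : List Bool, cd w q = cd w' q' ∧ Pass l A q'.length w' := ⟨q, w, rfl, hp⟩
  rw [Phi_eq, dif_pos h, decide_eq_true_eq]
  have e : h.choose = q := by
    obtain ⟨w', h1, _⟩ := h.choose_spec
    exact (cd_inj h1).2.symm
  rw [e]
  refine htr _ _ _ (fun v hv => ?_)
  rw [if_pos]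
  rw [cd_length]
  omega

theorem Phi_other (A : List Bool → Bool) {x : List Bool}
    (h : ∀ q w : List Bool, x = cd w q → ¬ Pass l A q.length w) : Phi l tr A x = A x := by
  classical
  rw [Phi_eq, dif_neg]
  rintro ⟨q, w, h1, h2⟩
  exact h q w h1 h2

theorem Phi_pw (A : List Bool → Bool) (n : ℕ) (w : List Bool) :
    Phi l tr A (pw n w) = A (pw n w) :=
  Phi_other A (fun _ _ h => absurd h (pw_ne_cd _ _ _ _))

theorem Phi_rg (A : List Bool → Bool) (j b : ℕ) (z : List Bool) :
    Phi l tr A (rg j b z) = A (rg j b z) :=
  Phi_other A (fun _ _ h => absurd h (rg_ne_cd _ _ _ _ _))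

theorem Pass_Phi (A : List Bool → Bool) (n : ℕ) (w : List Bool) :
    Pass l (Phi l tr A) n w ↔ Pass l A n w :=
  Pass_congr (fun w' _ => Phi_pw A n w')

theorem legal_Phi (htr : Loc tr) (A : List Bool → Bool) : Legal l tr (Phi l tr A) := by
  intro q w hp
  exact Phi_code htr A ((Pass_Phi A _ _).mp hp)

/-- a legal oracle is not changed below a length up to which nothing was changed -/
theorem Phi_eq_of_lt (htr : Loc tr) {A O : List Bool → Bool} {m : ℕ} (hO : Legal l tr O)
    (h : ∀ x : List Bool, x.length < m → A x = O x) :
    ∀ x : List Bool, x.length < m → Phi l tr A x = O x := by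
  intro x
  induction hn : x.length using Nat.strong_induction_on generalizing x with
  | _ n ih =>
    intro hx
    by_cases hc : ∃ q w : List Bool, x = cd w q ∧ Pass l A q.length w
    · obtain ⟨q, w, rfl, hp⟩ := hc
      rw [cd_length] at hn
      have hw := hp.1
      have hp' : Pass l O q.length w := by
        refine (Pass_congr (fun w' hw' => ?_)).mp hp
        refine h _ ?_
        rw [pw_length]
        omega
      rw [Bool.eq_iff_iff, Phi_code htr A hp, hO q w hp']
      exact htr _ _ _ (fun v hv => ih v.length (by omega) v rfl (by omega))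
    · rw [Phi_other A (fun q w h1 h2 => hc ⟨q, w, h1, h2⟩)]
      exact h x (by omega)

/-! ### the repair -/

open Classical in
/-- put the string at position `z` into its region, and new passwords `W n` for all `n ≥ L` -/
noncomputable def addT (O : List Bool → Bool) (L : ℕ) (z : List Bool) (W : ℕ → List Bool)
    (x : List Bool) : Bool :=
  if x = z ∨ ∃ n, L ≤ n ∧ x = pw n (W n) then true else O x

/-- **Repair.** -/
theorem repair (htr : Loc tr) {O : List Bool → Bool} (hO : Legal l tr O) {L : ℕ}
    (hno : ∀ n, L ≤ n → ∀ w : List Bool, w.length = l n → O (pw n w) = false)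
    {z : List Bool} (hz : z.length = L) (hz1 : ∀ n w, z ≠ pw n w) (hz2 : ∀ w q, z ≠ cd w q)
    {W : ℕ → List Bool} (hW : ∀ n, (W n).length = l n) {x : List Bool} (hx : x ≠ z)
    (hx1 : ∀ n, L ≤ n → x ≠ pw n (W n)) (hx2 : ∀ q : List Bool, L ≤ q.length →
      x ≠ cd (W q.length) q) :
    Phi l tr (addT O L z W) x = O x := by
  classical
  have hA : ∀ y : List Bool, y ≠ z → (∀ n, L ≤ n → y ≠ pw n (W n)) →
      addT O L z W y = O y := by
    intro y h1 h2
    unfold addT
    rw [if_neg]
    rintro (h | ⟨n, hn, h⟩)
    · exact h1 h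
    · exact h2 n hn h
  have hlow : ∀ y : List Bool, y.length < L → addT O L z W y = O y := by
    intro y hy
    refine hA y ?_ (fun n hn h => ?_)
    · rintro rfl; omega
    · rw [h, pw_length] at hy
      omega
  have hlow' := Phi_eq_of_lt htr hO hlow
  by_cases hc : ∃ q w : List Bool, x = cd w q ∧ Pass l (addT O L z W) q.length w
  · obtain ⟨q, w, rfl, hp⟩ := hc
    rcases Nat.lt_or_ge q.length L with hq | hq
    · have hp' : Pass l O q.length w := by
        refine (Pass_congr (fun w' hw' => ?_)).mp hp
        refine hA _ (fun h => hz1 _ _ h.symm) (fun n hn h => ?_)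
        have := (pw_inj h).1
        omega
      rw [Bool.eq_iff_iff, Phi_code htr _ hp, hO q w hp']
      exact htr _ _ _ (fun v hv => hlow' v (by omega))
    · exfalso
      have hnew : addT O L z W (pw q.length (W q.length)) = true := by
        unfold addT
        rw [if_pos (Or.inr ⟨q.length, hq, rfl⟩)]
      rcases hp.2 with h | ⟨_, h⟩
      · by_cases hw : w = W q.length
        · exact hx2 q hq (by rw [← hw])
        · rw [hA _ (fun h => hz1 _ _ h.symm) (fun n hn h => by
            obtain ⟨h1, h2⟩ := pw_inj h
            subst h1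
            exact hw h2), hno _ hq _ hp.1] at h
          cases h
      · rw [h _ (hW _)] at hnew
        cases hnew
  · rw [Phi_other _ (fun q w h1 h2 => hc ⟨q, w, h1, h2⟩)]
    exact hA x hx hx1

/-- fewer than `2^m` strings do not exhaust the strings of length `m` -/
theorem exists_word (S : Finset (List Bool)) (m : ℕ) (h : S.card < 2 ^ m) :
    ∃ w : List Bool, w.length = m ∧ w ∉ S := by
  classical
  by_contra hcon
  push Not at hcon
  have h1 : (Finset.univ.image (List.ofFn : (Fin m → Bool) → List Bool)) ⊆ S := by
    intro w hw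
    rw [Finset.mem_image] at hw
    obtain ⟨f, _, rfl⟩ := hw
    exact hcon _ (by simp)
  have h2 := Finset.card_le_card h1
  rw [Finset.card_image_of_injective _ List.ofFn_injective] at h2
  simp at h2
  omega

/-- the word named at a position -/
def wrd : List Bool → List Bool
  | false :: false :: s => (prs s).2
  | false :: true :: s => un1 s
  | _ => []

@[simp] theorem wrd_pw (n : ℕ) (w : List Bool) : wrd (pw n w) = w := by
  simp [pw, wrd, prs_ones]

@[simp] theorem wrd_cd (w q : List Bool) : wrd (cd w q) = w := by
  simp [cd, wrd]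

/-- **Unread words** for the new passwords. -/
theorem exists_words (Q : Finset (List Bool)) {L : ℕ} (h : ∀ n, L ≤ n → Q.card < 2 ^ l n) :
    ∃ W : ℕ → List Bool, (∀ n, (W n).length = l n) ∧
      ∀ x ∈ Q, (∀ n, L ≤ n → x ≠ pw n (W n)) ∧
        ∀ q : List Bool, L ≤ q.length → x ≠ cd (W q.length) q := by
  classical
  have h1 : ∀ n, ∃ w : List Bool, w.length = l n ∧ (L ≤ n → w ∉ Q.image wrd) := by
    intro n
    by_cases hn : L ≤ n
    · obtain ⟨w, h1, h2⟩ := exists_word (Q.image wrd) (l n)
        (lt_of_le_of_lt Finset.card_image_le (h n hn))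
      exact ⟨w, h1, fun _ => h2⟩
    · exact ⟨List.replicate (l n) false, by simp, fun h => absurd h hn⟩
  choose W hW1 hW2 using h1
  refine ⟨W, hW1, fun x hx => ⟨fun n hn h2 => ?_, fun q hq h2 => ?_⟩⟩
  · refine hW2 n hn (Finset.mem_image.mpr ⟨x, hx, ?_⟩)
    rw [h2, wrd_pw]
  · refine hW2 _ hq (Finset.mem_image.mpr ⟨x, hx, ?_⟩)
    rw [h2, wrd_cd]

end Pool.Agent.H65.EW
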