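import Pool.Agent.H65.NU.Pair

set_option autoImplicit false

/-!
# Statements of the second level as clocked statements about numbered machines
-/

namespace Pool.Agent.H65.EW

open Pool.Agent.H88.RO Pool.Agent.H88.RO.Tr Pool.Agent.H65.TS Pool.Agent.H65.NU

variable {O : List Bool → Bool}

/-- The statement described by the string `q` (usually `1^K 0 1^N 0 1^i 0 x`) is true relative
to `O`: for some string `u` of length at most `N`, machine number `i` accepts `(x, u, v)` within
the clock `K` for all strings `v` of length at most `N`. -/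
def Stt (O : List Bool → Bool) (q : List Bool) : Prop :=
  ∃ u : List Bool, u.length ≤ zN q ∧ ∀ v : List Bool, v.length ≤ zN q →
    snd (U O (mach (zi q)) (node (enc (zx q)) (node (enc u) (enc v))) (zK q)) ≠ leaf

/-- the truth of the statement `q` depends only on the oracle up to the length of `q` -/
theorem Stt_congr {O O' : List Bool → Bool} {q : List Bool}
    (h : ∀ w : List Bool, w.length ≤ q.length → O' w = O w) : Stt O' q ↔ Stt O q := by
  have hK : ∀ w : List Bool, w.length ≤ zK q → O' w = O w := fun w hw =>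
    h w (hw.trans (by have := z_le q; omega))
  unfold Stt
  simp only [U_local' _ _ _ hK]

/-- the program evaluated on `(x, u, v)` -/
private def progF (R : List Bool → List Bool → Bool) (P P' : Tr → Tr) (v : Tr) : Tr :=
  cs (dropU (P (fst v)) (fst (snd v)))
    (cs (dropU (P' (prT (fst v) (fst (snd v)))) (snd (snd v)))
      (cs (bit (R (dec (prT (fst v) (fst (snd v)))) (dec (snd (snd v))))) tt leaf) tt) leaf

private theorem FP_progF {R : List Bool → List Bool → Bool} (hR : PolyTimeRel O R)
    {P P' : Tr → Tr} (hP : ∀ (F : Tr → Tr), FP O F → FP O (fun v => P (F v)))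
    (hP' : ∀ (F : Tr → Tr), FP O F → FP O (fun v => P' (F v))) : FP O (progF R P P') := by
  have h1 : FP O (fun v => fst v) := FP.fst' FP.id'
  have h2 : FP O (fun v => snd v) := FP.snd' FP.id'
  have h3 : FP O (fun v => fst (snd v)) := FP.fst' h2
  have h4 : FP O (fun v => snd (snd v)) := FP.snd' h2
  have h5 : FP O (fun v => prT (fst v) (fst (snd v))) := FP.prT' h1 h3
  exact FP.cs' (FP.dropU' (hP _ h1) h3) (FP.cs' (FP.dropU' (hP' _ h5) h4)
    (FP.cs' (FP.rel hR h5 h4) (FP.const' _) FP.leaf') (FP.const' _)) FP.leaf'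

private theorem progF_spec {R : List Bool → List Bool → Bool} {P P' : Tr → Tr}
    {p p' : Polynomial ℕ} (hP : ∀ v, P v = num (p.eval (len v)))
    (hP' : ∀ v, P' v = num (p'.eval (len v))) (x u v : List Bool) :
    progF R P P' (node (enc x) (node (enc u) (enc v))) ≠ leaf ↔
      u.length ≤ p.eval x.length ∧
        (v.length ≤ p'.eval (pr x u).length → ¬ R (pr x u) v = true) := by
  unfold progF
  simp only [fst_node, snd_node, prT_enc, dec_enc, hP, hP', len_enc]
  by_cases h1 : u.length ≤ p.eval x.length
  · rw [cs_pos _ _ (by rw [dropU_eq_leaf, len_enc, len_num]; exact h1)]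
    by_cases h2 : v.length ≤ p'.eval (pr x u).length
    · rw [cs_pos _ _ (by rw [dropU_eq_leaf, len_enc, len_num]; exact h2)]
      cases h3 : R (pr x u) v
      · simp [bit, h1]
      · rw [bit_true, cs_tt]
        simp [h2]
    · rw [cs_neg _ _ (by rw [ne_eq, dropU_eq_leaf, len_enc, len_num]; exact h2)]
      simp [h1, h2]
  · rw [cs_neg _ _ (by rw [ne_eq, dropU_eq_leaf, len_enc, len_num]; exact h1)]
    simp [h1]

/-- **Every set in Σ₂ᵖ is given by the clocked statements of a numbered machine.** -/
theorem exists_stt {L : Set (List Bool)} (hL : InSigma2 O L) :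
    ∃ (i : ℕ) (k n : Polynomial ℕ), ∀ x,
      x ∈ L ↔ Stt O (ins (k.eval x.length) (n.eval x.length) i x) := by
  obtain ⟨M, p, ⟨R, p', hR, hM⟩, hL⟩ := hL
  obtain ⟨P, hp1, hp2⟩ := exists_polyT p
  obtain ⟨P', hp1', hp2'⟩ := exists_polyT p'
  obtain ⟨c, r, hc⟩ := FP_progF (O := O) hR (hp2 O) (hp2' O)
  let n : Polynomial ℕ := p + p'.comp (2 * Polynomial.X + 1 + p)
  let k : Polynomial ℕ := Polynomial.C (size (code c) + 10) *
    r.comp (4 * Polynomial.X + 8 * n + 5) + 10
  refine ⟨sval (rpn (code c)), k, n, fun x => ?_⟩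
  have hn : n.eval x.length = p.eval x.length + p'.eval (2 * x.length + 1 + p.eval x.length) := by
    simp [n]
  have hk : k.eval x.length = (size (code c) + 10) *
      r.eval (4 * x.length + 8 * n.eval x.length + 5) + 10 := by
    simp [k]
  have hU : ∀ u v : List Bool, u.length ≤ n.eval x.length → v.length ≤ n.eval x.length →
      snd (U O (code c) (node (enc x) (node (enc u) (enc v))) (k.eval x.length)) =
        progF R P P' (node (enc x) (node (enc u) (enc v))) := by
    intro u v hu hv
    obtain ⟨t, ht, he⟩ := hc (node (enc x) (node (enc u) (enc v)))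
    rw [U_eq he, snd_node]
    rw [hk]
    refine Nat.add_le_add_right (Nat.mul_le_mul_left _ (ht.trans (poly_mono r ?_))) _
    have h1 := size_enc_le x
    have h2 := size_enc_le u
    have h3 := size_enc_le v
    simp only [size]
    omega
  unfold Stt
  rw [zN_ins, zi_ins, zx_ins, zK_ins, mach_sval, hL x]
  have hM' : ∀ z, z ∈ M ↔ ∀ v : List Bool, v.length ≤ p'.eval z.length → ¬ R z v = true := by
    intro z
    have := hM z
    rw [Set.mem_compl_iff] at this
    rw [← not_iff_not, this]
    push Not
    rfl
  constructor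
  · rintro ⟨u, hu, hM1⟩
    refine ⟨u, by omega, fun v hv => ?_⟩
    rw [hU u v (by omega) hv, progF_spec hp1 hp1']
    exact ⟨hu, (hM' _).mp hM1 v⟩
  · rintro ⟨u, hu, hall⟩
    have h0 := hall [] (by simp)
    rw [hU u [] hu (by simp), progF_spec hp1 hp1'] at h0
    refine ⟨u, h0.1, (hM' _).mpr (fun v hv => ?_)⟩
    have hlen : p'.eval (pr x u).length ≤ p'.eval (2 * x.length + 1 + p.eval x.length) := by
      refine poly_mono p' ?_
      rw [pr_length]
      have := h0.1
      omega
    have h1 := hall v (by omega)
    rw [hU u v hu (by omega), progF_spec hp1 hp1'] at h1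
    exact h1.2 hv

end Pool.Agent.H65.EW
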