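import Pool.Agent.H45.EW.Fin
import Pool.Agent.H65.EW.TRead

set_option autoImplicit false

/-! # The limit, for Turing reductions -/

namespace Pool.Agent.H65.EW

open Pool.Agent.H88.RO Tr Classical Pool.Agent.H45.EW

variable {ℓ : ℕ → ℕ} {tr : Orc → List Bool → Prop}

/-- the requirements -/
abbrev TTask := (Pre × ℕ) ⊕ (Pre × ℕ × ℕ × Prog × ℕ)

/-- an enumeration in which each requirement occurs again and again -/
theorem exists_tenum : ∃ ν : ℕ → TTask, ∀ (t : TTask) (k0 : ℕ), ∃ k, k0 ≤ k ∧ ν k = t := by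
  have : Nonempty TTask := ⟨Sum.inl ((Tr.leaf, 0, 0), 0)⟩
  obtain ⟨g, hg⟩ := exists_surjective_nat TTask
  refine ⟨fun k => g (Nat.unpair k).2, fun t k0 => ?_⟩
  obtain ⟨a, ha⟩ := hg t
  refine ⟨Nat.pair k0 a, Nat.left_le_pair _ _, ?_⟩
  simp [ha]

/-- the requirement `t` is met at `q`, an extension of `p` -/
def TMet (p : Cnd ℓ tr) (q : Cnd ℓ tr) : TTask → Prop
  | Sum.inl (e, κ) => Dead e q ∨ ∃ j, Alive e κ j q
  | Sum.inr (e, κ, j, c, N) => Alive e κ j p → TKill ℓ e κ j c N q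

theorem exists_tstep (htr : Loc tr) (hℓ : ∀ n, ℓ n ≤ n) (p : Cnd ℓ tr) (t : TTask) (m : ℕ) :
    ∃ q : Cnd ℓ tr, p.Le q ∧ m ≤ q.m ∧ TMet p q t := by
  rcases t with ⟨e, κ⟩ | ⟨e, κ, j, c, N⟩
  · obtain ⟨q, hq, h⟩ := exists_decide htr e κ p
    obtain ⟨r, hr, hm⟩ := exists_raise q m
    refine ⟨r, hq.trans hr, hm, ?_⟩
    rcases h with h | ⟨j, h⟩
    · exact Or.inl (h.mono hr)
    · exact Or.inr ⟨j, h.mono hr⟩
  · by_cases ha : Alive e κ j p
    · obtain ⟨q, hq, h⟩ := exists_tkill htr hℓ ha c N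
      obtain ⟨r, hr, hm⟩ := exists_raise q m
      exact ⟨r, hq.trans hr, hm, fun _ => h.mono hr⟩
    · obtain ⟨r, hr, hm⟩ := exists_raise p m
      exact ⟨r, hr, hm, fun h => absurd h ha⟩

/-- a sequence of conditions which meets all requirements -/
theorem exists_tseq (htr : Loc tr) (hℓ : ∀ n, ℓ n ≤ n) : ∃ p : ℕ → Cnd ℓ tr,
    (∀ k, (p k).Le (p (k + 1))) ∧ (∀ k, k ≤ (p k).m) ∧
    (∀ e κ, ∃ k, Dead e (p k) ∨ ∃ j, Alive e κ j (p k)) ∧
    ∀ e κ j k, Alive e κ j (p k) → ∀ c N, ∃ k', TKill ℓ e κ j c N (p k') := by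
  obtain ⟨ν, hν⟩ := exists_tenum
  choose st h1 h2 h3 using fun (p : Cnd ℓ tr) (t : TTask) (m : ℕ) => exists_tstep htr hℓ p t m
  obtain ⟨p0, -⟩ := exists_cnd (ℓ := ℓ) htr
  let p : ℕ → Cnd ℓ tr := fun k => Nat.rec p0 (fun k q => st q (ν k) (k + 1)) k
  have hp : ∀ k, p (k + 1) = st (p k) (ν k) (k + 1) := fun _ => rfl
  have hle : ∀ k, (p k).Le (p (k + 1)) := fun k => by rw [hp]; exact h1 _ _ _
  refine ⟨p, hle, ?_, ?_, ?_⟩
  · intro k
    cases k with
    | zero => exact Nat.zero_le _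
    | succ k => rw [hp]; exact h2 _ _ _
  · intro e κ
    obtain ⟨k, -, hk⟩ := hν (Sum.inl (e, κ)) 0
    refine ⟨k + 1, ?_⟩
    have := h3 (p k) (ν k) (k + 1)
    rw [← hp, hk] at this
    exact this
  · intro e κ j k ha c N
    obtain ⟨k', hkk, hk⟩ := hν (Sum.inr (e, κ, j, c, N)) k
    refine ⟨k' + 1, ?_⟩
    have := h3 (p k') (ν k') (k' + 1)
    rw [← hp, hk] at this
    exact this (ha.mono (le_chain hle hkk))

/-- the oracle -/
theorem exists_toracle (htr : Loc tr) (hℓ : ∀ n, ℓ n ≤ n) : ∃ O : Orc, Legal ℓ tr O ∧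
    ∀ e, Tot e O → ∀ κ, ∃ j β, Sat O j (κ, β) ∧ ∀ c N, ∃ b, N ≤ b ∧
      ∀ T, (∀ m, b ^ (κ + 1) ≤ m → (TPol e c).eval T < 2 ^ ℓ m) →
        ¬ TRedAt O e κ j c T b := by
  obtain ⟨p, hle, hm, hdec, hkill⟩ := exists_tseq (ℓ := ℓ) htr hℓ
  let O : Orc := fun s => (p (s.length + 1)).O s
  have hO : ∀ k, Ag (p k).m (p k).O O := by
    intro k s hs
    show (p (s.length + 1)).O s = (p k).O s
    rcases Nat.le_total k (s.length + 1) with h | h
    · exact (le_chain hle h).ag s hs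
    · exact ((le_chain hle h).ag s (lt_of_lt_of_le (Nat.lt_succ_self _) (hm _))).symm
  refine ⟨O, ?_, ?_⟩
  · intro q w hw
    have hk := hm (2 * ℓ q.length + q.length + 4)
    have hA := hO (2 * ℓ q.length + q.length + 4)
    have hl : w.length = ℓ q.length := hw.1
    have hp : Pass ℓ (p (2 * ℓ q.length + q.length + 4)).O q.length w := by
      refine ⟨hl, ?_⟩
      rcases hw.2 with h1 | ⟨h1, h2⟩
      · left
        rw [← hA _ (by rw [pw_length]; omega)]
        exact h1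
      · right
        refine ⟨h1, fun w' hw' => ?_⟩
        rw [← hA _ (by rw [pw_length]; omega)]
        exact h2 w' hw'
    have h3 := (p (2 * ℓ q.length + q.length + 4)).leg q w hp
    rw [hA _ (by rw [cd_length]; omega), h3]
    exact (htr _ _ _ (fun s hs => hA _ (by omega))).symm
  · intro e ht κ
    obtain ⟨k, hd | ⟨j, ha⟩⟩ := hdec e κ
    · exfalso
      obtain ⟨x, hx⟩ := hd
      obtain ⟨y, hy⟩ := ht x
      exact hx O (hO k) y hy
    · have ha' := ha
      obtain ⟨β, m0, -, -, hA, -⟩ := ha'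
      refine ⟨j, β, ?_, fun c N => ?_⟩
      · intro b hb
        set k' := max k (j + b + b ^ (κ + 1) + 4) with hk'
        have hkk : k ≤ k' := le_max_left _ _
        have hm' : j + b + b ^ (κ + 1) + 4 ≤ (p k').m := (le_max_right _ _).trans (hm k')
        have hA' : (p k').A[j]? = some (κ, β) := by
          obtain ⟨t, ht⟩ := (le_chain hle hkk).A
          rw [← ht, List.getElem?_append_left]
          · exact hA
          · by_contra hc
            rw [List.getElem?_eq_none (by omega)] at hA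
            cases hA
        obtain ⟨z, hz, h1⟩ := (p k').sat j (κ, β) hA' b hb
        refine ⟨z, hz, ?_⟩
        rw [hO k' _ (by rw [rg_length, hz]; show j + b + b ^ (κ + 1) + 3 < _; omega)]
        exact h1
      · obtain ⟨k', b, hb, h⟩ := hkill e κ j k ha c N
        exact ⟨b, hb, fun T hT => h T hT O (hO k')⟩

/-- **No complete problem, under Turing reductions.** -/
theorem exists_no_turing_complete (htr : Loc tr) (hℓ : ∀ n, ℓ n ≤ n) :
    ∃ O : Orc, Legal ℓ tr O ∧ ∀ (T : TFNP O) (κ : ℕ), ∃ S : TFNP O,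
      (∀ x x' y, x.length = x'.length → (S.IsSol x y ↔ S.IsSol x' y)) ∧
        ∀ t, Small ℓ κ t → ¬ TuringWithin t S T := by
  obtain ⟨O, hO, hk⟩ := exists_toracle (ℓ := ℓ) htr hℓ
  refine ⟨O, hO, fun T κ => ?_⟩
  obtain ⟨e, he⟩ := exists_pre T
  have htot : Tot e O := fun x => by
    obtain ⟨y, hy⟩ := T.total x
    exact ⟨y, (he x y).1 hy⟩
  obtain ⟨j, β, hsat, hkill⟩ := hk e htot κ
  have hr : ∀ b, (Polynomial.X ^ (κ + 1) : Polynomial ℕ).eval b = b ^ (κ + 1) := fun b => by simp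
  have h : ∀ b, β ≤ b → ∃ z : List Bool,
      z.length = (Polynomial.X ^ (κ + 1) : Polynomial ℕ).eval b ∧ O (rg j b z) = true := by
    intro b hb
    obtain ⟨z, hz1, hz2⟩ := hsat b hb
    exact ⟨z, by rw [hr, hz1], hz2⟩
  have hsol : (fun s y => T.IsSol s y) = Sol e O := by
    funext s y
    exact propext (he s y)
  refine ⟨SJ O j β (Polynomial.X ^ (κ + 1)) h, fun x x' y hx => SJ_length h hx, fun t ht => ?_⟩
  rintro ⟨c, hred⟩
  obtain ⟨b0, hb0⟩ := ht (TPol e c)
  obtain ⟨b, hb, hno⟩ := hkill c (max β b0)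
  refine hno (t b) (fun m hm => hb0 b m ((le_max_right _ _).trans hb) hm) ?_
  intro g hg
  have hg' : Hst O T.IsSol c (List.replicate b true) g := by
    have e1 : T.IsSol = Sol e O := hsol
    rw [e1]
    exact hg
  rcases hred (List.replicate b true) g hg' with ⟨w, ⟨u, hu, h1⟩, h2⟩ | ⟨hl, s, u, hu, h1⟩
  · rw [List.length_replicate] at hu
    have h5 := SJ_sol h (by rw [List.length_replicate]; exact (le_max_left _ _).trans hb) h2
    rw [List.length_replicate, hr] at h5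
    exact Or.inl ⟨w, ⟨u, hu, h1⟩, h5.1, h5.2⟩
  · rw [List.length_replicate] at hl hu
    exact Or.inr ⟨hl, s, u, hu, h1⟩

/-- polynomial time Turing reductions run within a time bound `C n ^ C + C` -/
theorem turingWithin_of_turingRed {O : Orc} {S T : TFNP O} (h : TuringRed S T) :
    ∃ C : ℕ, TuringWithin (fun n => C * n ^ C + C) S T := by
  obtain ⟨r, hr⟩ := h
  obtain ⟨e, he⟩ := exists_pow_bound r
  refine ⟨e + r.eval 0 + r.eval 1 + 1, TuringWithin.mono (fun n => ?_) hr⟩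
  set C := e + r.eval 0 + r.eval 1 + 1 with hC
  rcases Nat.lt_or_ge n 2 with hn | hn
  · have h1 : r.eval n ≤ C := by
      interval_cases n
      · omega
      · omega
    exact h1.trans (Nat.le_add_left _ _)
  · have h1 : n ^ e ≤ n ^ C := Nat.pow_le_pow_right (by omega) (by omega)
    have h2 : n ^ C ≤ C * n ^ C := Nat.le_mul_of_pos_left _ (by omega)
    have h3 := he n hn
    show r.eval n ≤ C * n ^ C + C
    omega

end Pool.Agent.H65.EW
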