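import Pool.Agent.H65.EW.Cond

set_option autoImplicit false

/-!
# The limit of a generic sequence of conditions
-/

namespace Pool.Agent.H65.EW

open Pool.Agent.H88.RO Pool.Agent.H88.RO.Tr Pool.Agent.H65.TS Pool.Agent.H65.NU

instance : Countable Tr :=
  Function.Injective.countable (f := rpn) (fun a b h => by
    have h1 := decode_pad 0 a
    have h2 := decode_pad 0 b
    rw [h] at h1
    exact h1.symm.trans h2)

theorem code_injective : Function.Injective code := by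
  intro a
  induction a with
  | id => intro b h; cases b <;> simp [code, num] at h ⊢
  | nil => intro b h; cases b <;> simp [code, num] at h ⊢
  | fst => intro b h; cases b <;> simp [code, num] at h ⊢
  | snd => intro b h; cases b <;> simp [code, num] at h ⊢
  | query => intro b h; cases b <;> simp [code, num] at h ⊢
  | pair f g ihf ihg =>
    intro b h
    cases b <;> simp [code, num] at h ⊢
    exact ⟨ihf h.1, ihg h.2⟩
  | comp f g ihf ihg =>
    intro b h
    cases b <;> simp [code, num] at h ⊢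
    exact ⟨ihf h.1, ihg h.2⟩
  | cond f g ihf ihg =>
    intro b h
    cases b <;> simp [code, num] at h ⊢
    exact ⟨ihf h.1, ihg h.2⟩
  | loop f ihf =>
    intro b h
    cases b <;> simp [code, num] at h ⊢
    exact ihf h

instance : Countable Prog := Function.Injective.countable code_injective

instance : Nonempty Prog := ⟨Prog.id⟩

variable {P : Prm}

/-- what is achieved for the requirement `(j, C, cf, cg)` -/
def Done (P : Prm) (c : Cnd) (R : ℕ × ℕ × Prog × Prog) : Prop :=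
  Part P c R.1 ∨ (R.1 ∈ c.J ∧ ∃ b, c.β R.1 ≤ b ∧ ∀ O', Agr c.m O' c.O →
    Bad P O' R.1 R.2.1 R.2.2.1 R.2.2.2 b)

theorem step (hH : P.Cnt) {c : Cnd} (hc : P.Val c) (n : ℕ) (R : ℕ × ℕ × Prog × Prog) :
    ∃ c', P.Val c' ∧ Le c' c ∧ n ≤ c'.m ∧ Done P c' R := by
  obtain ⟨c1, hv1, hl1, h1⟩ := stepA hc R.1
  obtain ⟨c2, hv2, hl2, h2⟩ : ∃ c2, P.Val c2 ∧ Le c2 c1 ∧ Done P c2 R := by
    rcases h1 with h1 | h1
    · obtain ⟨c2, hv2, hl2, b, hb, h3⟩ := stepB hH hv1 h1 R.2.1 R.2.2.1 R.2.2.2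
      refine ⟨c2, hv2, hl2, Or.inr ⟨(hl2.2.2 _ h1).1, b, ?_, h3⟩⟩
      rw [(hl2.2.2 _ h1).2]
      exact hb
    · exact ⟨c1, hv1, Le.refl c1, Or.inl h1⟩
  obtain ⟨hv3, hl3⟩ := val_of_ext hv2 hv2.1 (m' := c2.m + n) (by omega)
  refine ⟨_, hv3, hl3.trans (hl2.trans hl1), by show n ≤ c2.m + n; omega, ?_⟩
  rcases h2 with ⟨x, hx⟩ | ⟨h4, b, hb, h5⟩
  · exact Or.inl ⟨x, fun O' hA => hx O' (hA.mono (by show c2.m ≤ c2.m + n; omega))⟩
  · exact Or.inr ⟨h4, b, hb, fun O' hA => h5 O' (hA.mono (by show c2.m ≤ c2.m + n; omega))⟩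

/-- the generic sequence -/
theorem exists_seq (hH : P.Cnt) (R : ℕ → ℕ × ℕ × Prog × Prog) :
    ∃ c : ℕ → Cnd, (∀ n, P.Val (c n)) ∧ (∀ n, Le (c (n + 1)) (c n)) ∧ (∀ n, n ≤ (c n).m) ∧
      ∀ n, Done P (c (n + 1)) (R n) := by
  have h0 : P.Val ⟨Phi P.l P.tr (fun _ => false), 0, ∅, fun _ => 0⟩ :=
    ⟨⟨legal_Phi P.htr _, fun _ _ => rfl, fun j hj => absurd hj (Set.notMem_empty j)⟩,
      fun j hj => absurd hj (Set.notMem_empty j)⟩
  have hs : ∀ (n : ℕ) (c : {c : Cnd // P.Val c}), ∃ c' : {c : Cnd // P.Val c},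
      Le c'.1 c.1 ∧ n + 1 ≤ c'.1.m ∧ Done P c'.1 (R n) := by
    intro n c
    obtain ⟨c', h1, h2, h3, h4⟩ := step hH c.2 (n + 1) (R n)
    exact ⟨⟨c', h1⟩, h2, h3, h4⟩
  choose f hf using hs
  let c : ℕ → {c : Cnd // P.Val c} := fun n => Nat.rec ⟨_, h0⟩ (fun n c => f n c) n
  have hc : ∀ n, c (n + 1) = f n (c n) := fun n => rfl
  refine ⟨fun n => (c n).1, fun n => (c n).2, fun n => ?_, fun n => ?_, fun n => ?_⟩
  · exact (hf n (c n)).1
  · cases n with
    | zero => exact Nat.zero_le _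
    | succ n => exact (hf n (c n)).2.1
  · exact (hf n (c n)).2.2

theorem le_of_seq {c : ℕ → Cnd} (h : ∀ n, Le (c (n + 1)) (c n)) {m n : ℕ} (hmn : m ≤ n) :
    Le (c n) (c m) := by
  induction hmn with
  | refl => exact Le.refl _
  | step _ ih => exact (h _).trans ih

/-- **The construction.** -/
theorem exists_limit (hH : P.Cnt) : ∃ (O : List Bool → Bool) (J : Set ℕ) (β : ℕ → ℕ),
    Legal P.l P.tr O ∧ (∀ j ∈ J, P.Con O j (β j)) ∧
      ∀ (j C : ℕ) (cf cg : Prog), (∃ x, ∀ y, ¬ P.sol O j x y) ∨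
        (j ∈ J ∧ ∃ b, β j ≤ b ∧ Bad P O j C cf cg b) := by
  obtain ⟨R, hR⟩ := exists_surjective_nat (ℕ × ℕ × Prog × Prog)
  obtain ⟨c, hv, hl, hm, hd⟩ := exists_seq hH R
  let O : List Bool → Bool := fun x => (c (x.length + 1)).O x
  have hA : ∀ n, Agr (c n).m O (c n).O := by
    intro n x hx
    show (c (x.length + 1)).O x = (c n).O x
    rcases Nat.le_total n (x.length + 1) with h | h
    · exact (le_of_seq hl h).2.1 x hx
    · exact ((le_of_seq hl h).2.1 x (by have := hm (x.length + 1); omega)).symm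
  have hA' : ∀ n, Agr n O (c n).O := fun n => (hA n).mono (hm n)
  refine ⟨O, {j | ∃ n, j ∈ (c n).J}, fun j => sInf {v | ∃ n, j ∈ (c n).J ∧ v = (c n).β j},
    ?_, ?_, ?_⟩
  · -- legality
    intro q w hp
    have hlen : (cd w q).length = 2 * w.length + q.length + 3 := cd_length w q
    have h1 := hA' (2 * w.length + q.length + 4)
    have hw : w.length = P.l q.length := hp.1
    have hp' : Pass P.l (c (2 * w.length + q.length + 4)).O q.length w := by
      refine (Pass_congr (fun w' hw' => ?_)).mp hp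
      refine h1 _ ?_
      rw [pw_length]
      omega
    rw [h1 (cd w q) (by omega), (hv _).1.1 q w hp']
    exact (P.htr _ _ _ (fun v hv' => h1 v (by omega))).symm
  · -- constraints
    rintro j ⟨n, hj⟩ b hb
    have hβ : ∀ n', j ∈ (c n').J → (c n').β j = (c n).β j := by
      intro n' hj'
      rcases Nat.le_total n n' with h | h
      · exact ((le_of_seq hl h).2.2 j hj).2
      · exact ((le_of_seq hl h).2.2 j hj').2.symm
    have hβ2 : sInf {v | ∃ n, j ∈ (c n).J ∧ v = (c n).β j} = (c n).β j := by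
      have : {v | ∃ n, j ∈ (c n).J ∧ v = (c n).β j} = {(c n).β j} := by
        ext v
        constructor
        · rintro ⟨n', h1, h2⟩
          rw [Set.mem_singleton_iff, h2, hβ n' h1]
        · intro h
          exact ⟨n, hj, h⟩
      rw [this, csInf_singleton]
    replace hb : sInf {v | ∃ n, j ∈ (c n).J ∧ v = (c n).β j} ≤ b := hb
    rw [hβ2] at hb
    have hle : n ≤ n + (j + b + P.r j b + 4) := by omega
    have h2 := (le_of_seq hl hle).2.2 j hj
    obtain ⟨z, hz, h3⟩ := (hv (n + (j + b + P.r j b + 4))).1.2.2 j h2.1 b (by rw [h2.2]; exact hb)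
    refine ⟨z, hz, ?_⟩
    rw [hA' (n + (j + b + P.r j b + 4)) _ (by rw [rg_length]; omega)]
    exact h3
  · -- requirements
    intro j C cf cg
    obtain ⟨n, hn⟩ := hR (j, C, cf, cg)
    have h1 := hd n
    rw [hn] at h1
    rcases h1 with ⟨x, hx⟩ | ⟨hj, b, hb, h2⟩
    · exact Or.inl ⟨x, fun y => hx O (hA _) y⟩
    · refine Or.inr ⟨⟨n + 1, hj⟩, b, ?_, h2 O (hA _)⟩
      refine le_trans (Nat.sInf_le ⟨n + 1, hj, rfl⟩) hb

/-- **A world without complete problems.** -/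
theorem exists_world {l : ℕ → ℕ} {tr : (List Bool → Bool) → List Bool → Prop} (htr : Loc tr)
    (tau : ℕ → ℕ → ℕ → ℕ) (rho : ℕ → Polynomial ℕ)
    (H : ∀ (e C : ℕ) (q : Polynomial ℕ), ∃ b0, ∀ b, b0 ≤ b →
      q.eval (tau e C b) < 2 ^ (rho e).eval b ∧
        ∀ n, (rho e).eval b ≤ n → q.eval (tau e C b) < 2 ^ l n) :
    ∃ O : List Bool → Bool, Legal l tr O ∧ ∀ (T : TFNP O) (e : ℕ), ∃ S : TFNP O,
      (∀ x x' y, x.length = x'.length → (S.IsSol x y ↔ S.IsSol x' y)) ∧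
        ∀ C : ℕ, ¬ S.ReducesWithin (tau e C) T := by
  obtain ⟨dat, hdat⟩ := exists_surjective_nat (ℕ × Polynomial ℕ × Polynomial ℕ × ℕ)
  let P : Prm := ⟨l, tr, htr, tau, rho, dat⟩
  obtain ⟨O, J, β, hO, hCon, hreq⟩ := exists_limit (P := P) H
  refine ⟨O, hO, fun T e => ?_⟩
  obtain ⟨i, k, n, hT⟩ := exists_index T
  obtain ⟨j, hj⟩ := hdat (i, k, n, e)
  have hsol : ∀ x y, P.sol O j x y ↔ T.IsSol x y := by
    intro x y
    have e1 : P.dat j = (i, k, n, e) := hj
    show Usol O (P.dat j).1 ((P.dat j).2.1.eval x.length) ((P.dat j).2.2.1.eval x.length) x y ↔ _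
    rw [e1]
    exact hT x y
  have hnp : ¬ ∃ x, ∀ y, ¬ P.sol O j x y := by
    rintro ⟨x, hx⟩
    obtain ⟨y, hy⟩ := T.total x
    exact hx y ((hsol x y).mpr hy)
  have hreq' : ∀ C cf cg, j ∈ J ∧ ∃ b, β j ≤ b ∧ Bad P O j C cf cg b := by
    intro C cf cg
    rcases hreq j C cf cg with h | h
    · exact absurd h hnp
    · exact h
  have hJ : j ∈ J := (hreq' 0 Prog.id Prog.id).1
  have hr : ∀ b, P.r j b = (rho e).eval b := by
    intro b
    have e1 : P.dat j = (i, k, n, e) := hj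
    show (P.rho (P.dat j).2.2.2).eval b = _
    rw [e1]
  have ht : ∀ C b, P.tm j C b = tau e C b := by
    intro C b
    have e1 : P.dat j = (i, k, n, e) := hj
    show P.tau (P.dat j).2.2.2 C b = _
    rw [e1]
  have hc : ∀ b, β j ≤ b → ∃ z : List Bool, z.length = (rho e).eval b ∧
      O (rg j b z) = true := by
    intro b hb
    obtain ⟨z, hz, h1⟩ := hCon j hJ b hb
    exact ⟨z, by rw [hz, hr], h1⟩
  refine ⟨SJ O j (β j) (rho e) hc, fun x x' y h => SJ_length hc h, ?_⟩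
  rintro C ⟨cf, cg, hred⟩
  obtain ⟨_, b, hb, hbad⟩ := hreq' C cf cg
  obtain ⟨s, ⟨t, ht1, he⟩, hy⟩ := hred (List.replicate b true)
  rw [List.length_replicate, ← ht] at ht1
  obtain ⟨y, hy1, hw⟩ := hbad s (U_eq he (Nat.add_le_add_right (Nat.mul_le_mul_left _ ht1) _))
  obtain ⟨w, ⟨t2, ht2, he2⟩, hS⟩ := hy y ((hsol s y).mp hy1)
  rw [List.length_replicate, ← ht] at ht2
  have h3 := SJ_sol hc (by simpa using hb) hS
  rw [List.length_replicate] at h3
  refine hw w (U_eq he2 (Nat.add_le_add_right (Nat.mul_le_mul_left _ ht2) _)) ⟨?_, h3.2⟩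
  rw [hr]
  exact h3.1

end Pool.Agent.H65.EW
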